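import Pool.Agent.Helper90K9.AB.Basic

/-!
# Affine sets of letters
-/

set_option autoImplicit false

namespace Helper90K9.AB

open Relation

/-- the operations act as affine operations on a copy of a vector space over a prime field -/
def Affine {A J : Type} {k : J → ℕ} (f : ∀ j, (Fin (k j) → A) → A) : Prop :=
  ∃ (p s : ℕ) (φ : (Fin s → ZMod p) → A), p.Prime ∧ 0 < s ∧ Function.Injective φ ∧
    ∀ j, ∃ M : Fin (k j) → Matrix (Fin s) (Fin s) (ZMod p), ∀ x : Fin (k j) → Fin s → ZMod p,
      f j (fun a => φ (x a)) = φ (∑ a, (M a).mulVec (x a))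

section

variable {N A J : Type} {k : J → ℕ}

theorem affine_of_module [Finite N] [Nontrivial N] {g : ∀ j, (Fin (k j) → N) → N}
    [AddCommGroup N] (hadd : ∀ j (x y : Fin (k j) → N),
      g j (fun a => x a + y a) = g j x + g j y) (p : ℕ) [hpp : Fact p.Prime] [Module (ZMod p) N]
    {f : ∀ j, (Fin (k j) → A) → A} (e : N → A) (he : Function.Injective e)
    (hhom : ∀ j x, e (g j x) = f j (fun a => e (x a))) : Affine f := by
  classical
  have hfin : Module.Finite (ZMod p) N := Module.Finite.of_finite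
  let G : ∀ j, (Fin (k j) → N) →+ N := fun j => AddMonoidHom.mk' (g j) (hadd j)
  let b := Module.finBasis (ZMod p) N
  let ψ := b.equivFun
  refine ⟨p, Module.finrank (ZMod p) N, fun v => e (ψ.symm v), hpp.out, Module.finrank_pos,
    he.comp ψ.symm.injective, fun j => ?_⟩
  let r : Fin (k j) → (N →ₗ[ZMod p] N) := fun a =>
    ((G j).comp (AddMonoidHom.single (fun _ : Fin (k j) => N) a)).toZModLinearMap p
  have hr : ∀ x : Fin (k j) → N, g j x = ∑ a, r a (x a) := by
    intro x
    have h1 : x = ∑ a, Pi.single a (x a) := (Finset.univ_sum_single x).symm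
    calc g j x = G j (∑ a, Pi.single a (x a)) := by rw [← h1]; rfl
      _ = ∑ a, G j (Pi.single a (x a)) := map_sum _ _ _
      _ = _ := rfl
  refine ⟨fun a => LinearMap.toMatrix' (ψ.toLinearMap ∘ₗ r a ∘ₗ ψ.symm.toLinearMap), fun x => ?_⟩
  dsimp only
  rw [← hhom, hr]
  congr 1
  rw [LinearEquiv.eq_symm_apply, map_sum]
  refine Finset.sum_congr rfl fun a _ => ?_
  rw [← Matrix.toLin'_apply, Matrix.toLin'_toMatrix']
  rfl

theorem affine_of_group [Finite N] [Nontrivial N] {g : ∀ j, (Fin (k j) → N) → N}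
    (hss : ∀ S : Set N, ClosedSet g S → (∃ x ∈ S, ∃ y ∈ S, x ≠ y) → ∀ z, z ∈ S)
    [AddCommGroup N] (hadd : ∀ j (x y : Fin (k j) → N),
      g j (fun a => x a + y a) = g j x + g j y)
    {f : ∀ j, (Fin (k j) → A) → A} (e : N → A) (he : Function.Injective e)
    (hhom : ∀ j x, e (g j x) = f j (fun a => e (x a))) : Affine f := by
  classical
  -- the additive maps
  let G : ∀ j, (Fin (k j) → N) →+ N := fun j => AddMonoidHom.mk' (g j) (hadd j)
  obtain ⟨x₀, hx₀⟩ := exists_ne (0 : N)
  have hord : addOrderOf x₀ ≠ 1 := by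
    rw [Ne, AddMonoid.addOrderOf_eq_one_iff]
    exact hx₀
  obtain ⟨p, hp, hpp⟩ : ∃ p, p = (addOrderOf x₀).minFac ∧ p.Prime :=
    ⟨_, rfl, Nat.minFac_prime hord⟩
  have hS : ∀ z : N, z ∈ {x : N | p • x = 0} := by
    refine hss {x | p • x = 0} ?_ ⟨0, by simp, (addOrderOf x₀ / p) • x₀, ?_, ?_⟩
    · intro j x hx
      change p • (G j x) = 0
      rw [← map_nsmul]
      have : p • x = 0 := by
        funext a
        exact hx a
      rw [this, map_zero]
    · change p • ((addOrderOf x₀ / p) • x₀) = 0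
      rw [← mul_nsmul, hp, Nat.div_mul_cancel (Nat.minFac_dvd _), addOrderOf_nsmul_eq_zero]
    · intro h
      have h1 : addOrderOf x₀ ∣ addOrderOf x₀ / p := addOrderOf_dvd_iff_nsmul_eq_zero.2 h.symm
      have h2 : 0 < addOrderOf x₀ := addOrderOf_pos x₀
      have h3 : 0 < addOrderOf x₀ / p := by
        rw [hp] at hpp ⊢
        exact Nat.div_pos (Nat.minFac_le h2) hpp.pos
      have h4 := Nat.le_of_dvd h3 h1
      have h5 := Nat.div_lt_self h2 hpp.one_lt
      omega
  haveI : Fact p.Prime := ⟨hpp⟩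
  exact @affine_of_module N A J k _ _ g _ hadd p _ (AddCommGroup.zmodModule hS) f e he hhom

/-- a nontrivial algebra with the term condition contains an affine algebra -/
theorem affine_of_TC [Finite N] {g : ∀ j, (Fin (k j) → N) → N} (hid : Idem g)
    (hne : ∃ x y : N, x ≠ y)
    (TC : ∀ p q r s, Mat g (fun _ _ => True) (fun _ _ => True) p q r s → p = q → r = s)
    {f : ∀ j, (Fin (k j) → A) → A} (e : N → A) (he : Function.Injective e)
    (hhom : ∀ j x, e (g j x) = f j (fun a => e (x a))) : Affine f := by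
  classical
  haveI := Fintype.ofFinite N
  -- a minimal closed set
  let 𝒮 : Set (Finset N) := {S | ClosedSet g (S : Set N) ∧ ∃ x ∈ S, ∃ y ∈ S, x ≠ y}
  have h𝒮 : 𝒮.Nonempty := by
    obtain ⟨x, y, hxy⟩ := hne
    exact ⟨Finset.univ, fun j x _ => by simp, x, Finset.mem_univ _, y, Finset.mem_univ _, hxy⟩
  obtain ⟨S, hS, hmin⟩ := WellFounded.has_min (measure fun S : Finset N => S.card).wf 𝒮 h𝒮
  obtain ⟨hScl, x₀, hx₀, y₀, hy₀, hxy₀⟩ := hS
  let g' : ∀ j, (Fin (k j) → {x // x ∈ S}) → {x // x ∈ S} := fun j x =>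
    ⟨g j fun a => (x a).1, hScl j _ fun a => (x a).2⟩
  have hid' : Idem g' := fun j a => Subtype.ext (hid j a.1)
  have hne' : ∃ x y : {x // x ∈ S}, x ≠ y :=
    ⟨⟨x₀, hx₀⟩, ⟨y₀, hy₀⟩, fun h => hxy₀ (congrArg Subtype.val h)⟩
  have hss' : ∀ T : Set {x // x ∈ S}, ClosedSet g' T → (∃ x ∈ T, ∃ y ∈ T, x ≠ y) →
      ∀ z, z ∈ T := by
    rintro T hT ⟨x, hx, y, hy, hxy⟩ z
    set T' : Finset N := Finset.univ.filter fun x => ∃ h : x ∈ S, (⟨x, h⟩ : {x // x ∈ S}) ∈ T
      with hT'
    have h1 : T' ∈ 𝒮 := by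
      refine ⟨?_, x.1, ?_, y.1, ?_, fun h => hxy (Subtype.ext h)⟩
      · intro j t ht
        have ht' : ∀ a, ∃ h : t a ∈ S, (⟨t a, h⟩ : {x // x ∈ S}) ∈ T := by
          intro a
          have := ht a
          rw [hT', Finset.mem_coe, Finset.mem_filter] at this
          exact this.2
        choose h1 h2 using ht'
        rw [hT', Finset.mem_coe, Finset.mem_filter]
        exact ⟨Finset.mem_univ _, hScl j t h1, hT j (fun a => ⟨t a, h1 a⟩) h2⟩
      · rw [hT', Finset.mem_filter]
        exact ⟨Finset.mem_univ _, x.2, hx⟩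
      · rw [hT', Finset.mem_filter]
        exact ⟨Finset.mem_univ _, y.2, hy⟩
    have h2 : T' ⊆ S := by
      intro t ht
      rw [hT', Finset.mem_filter] at ht
      exact ht.2.1
    have h3 : T' = S := by
      refine Finset.eq_of_subset_of_card_le h2 ?_
      have := hmin T' h1
      change ¬ T'.card < S.card at this
      omega
    have h4 : z.1 ∈ T' := by
      rw [h3]
      exact z.2
    rw [hT', Finset.mem_filter] at h4
    exact h4.2.2
  have hmat : ∀ p q r s : {x // x ∈ S}, Mat g' (fun _ _ => True) (fun _ _ => True) p q r s →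
      Mat g (fun _ _ => True) (fun _ _ => True) p.1 q.1 r.1 s.1 := by
    intro p q r s hm
    induction hm with
    | row a a' _ => exact Mat.row _ _ trivial
    | col b b' _ => exact Mat.col _ _ trivial
    | app j p q r s _ ih => exact Mat.app j _ _ _ _ ih
  obtain ⟨inst, hadd⟩ := exists_group hid' hne' hss'
    (fun p q r s hm hpq => Subtype.ext (TC _ _ _ _ (hmat p q r s hm) (by rw [hpq])))
  haveI : Nontrivial {x // x ∈ S} := ⟨hne'⟩
  exact affine_of_group hss' hadd (fun x => e x.1) (fun x y h => Subtype.ext (he h))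
    (fun j x => hhom j _)

end

end Helper90K9.AB
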