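import Mathlib

/-!
# Finite idempotent algebras without proper subalgebras that satisfy the term condition
-/

set_option autoImplicit false

namespace Helper90K9.AB

open Relation

section

variable {N J : Type} {k : J → ℕ}

/-- idempotent operations -/
def Idem (g : ∀ j, (Fin (k j) → N) → N) : Prop := ∀ j a, g j (fun _ => a) = a

/-- closed sets -/
def ClosedSet (g : ∀ j, (Fin (k j) → N) → N) (S : Set N) : Prop :=
  ∀ j (x : Fin (k j) → N), (∀ a, x a ∈ S) → g j x ∈ S

/-- the matrices of the term condition: generated by the matrices with equal columns and
`α`-related rows and the matrices with equal rows and `β`-related columns -/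
inductive Mat (g : ∀ j, (Fin (k j) → N) → N) (α β : N → N → Prop) : N → N → N → N → Prop
  | row (a a' : N) (h : α a a') : Mat g α β a a a' a'
  | col (b b' : N) (h : β b b') : Mat g α β b b' b b'
  | app (j : J) (p q r s : Fin (k j) → N) (h : ∀ a, Mat g α β (p a) (q a) (r a) (s a)) :
      Mat g α β (g j p) (g j q) (g j r) (g j s)

theorem rlift {α β : Type} {r : α → α → Prop} {p : β → β → Prop} (f : α → β)
    (h : ∀ a b, r a b → p (f a) (f b)) {a b : α} (hab : ReflTransGen r a b) :
    ReflTransGen p (f a) (f b) := by
  induction hab with
  | refl => exact ReflTransGen.refl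
  | tail _ hstep ih => exact ih.tail (h _ _ hstep)

theorem rsymm {α : Type} {r : α → α → Prop} (h : ∀ a b, r a b → r b a) {a b : α}
    (hab : ReflTransGen r a b) : ReflTransGen r b a := by
  induction hab with
  | refl => exact ReflTransGen.refl
  | tail _ hstep ih => exact ReflTransGen.head (h _ _ hstep) ih

/-- one argument at a time -/
theorem lift_chain {X Y : Type} (R : X → X → Prop) (R' : Y → Y → Prop) {n : ℕ}
    (G : (Fin n → X) → Y) (P : X → Prop)
    (hstep : ∀ (x : Fin n → X) (a : Fin n) (u v : X), (∀ b, b ≠ a → P (x b)) → R u v →
      R' (G (Function.update x a u)) (G (Function.update x a v)))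
    (x y : Fin n → X) (hx : ∀ a, P (x a)) (hy : ∀ a, P (y a))
    (h : ∀ a, ReflTransGen R (x a) (y a)) : ReflTransGen R' (G x) (G y) := by
  classical
  have key : ∀ S : Finset (Fin n),
      ReflTransGen R' (G x) (G fun a => if a ∈ S then y a else x a) := by
    intro S
    induction S using Finset.induction_on with
    | empty => simpa using ReflTransGen.refl
    | insert a S ha ih =>
      refine ih.trans ?_
      set z : Fin n → X := fun b => if b ∈ S then y b else x b with hz
      have e1 : z = Function.update z a (x a) := by
        funext b
        by_cases hb : b = a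
        · subst hb
          simp [hz, ha]
        · simp [Function.update_of_ne hb]
      have e2 : (fun b => if b ∈ insert a S then y b else x b) = Function.update z a (y a) := by
        funext b
        by_cases hb : b = a
        · subst hb
          simp
        · simp [Function.update_of_ne hb, hz, hb]
      rw [e2]
      conv_lhs => rw [e1]
      refine rlift (fun u => G (Function.update z a u)) (fun u v huv => hstep z a u v ?_ huv) (h a)
      intro b _
      simp only [hz]
      split_ifs
      · exact hy b
      · exact hx b
  have := key Finset.univ
  simpa using this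

variable {g : ∀ j, (Fin (k j) → N) → N}

theorem Mat.swap {α β : N → N → Prop} (hα : ∀ x y, α x y → α y x) {p q r s : N}
    (hm : Mat g α β p q r s) : Mat g α β r s p q := by
  induction hm with
  | row a a' ha => exact Mat.row a' a (hα _ _ ha)
  | col b b' hb => exact Mat.col b b' hb
  | app j p q r s _ ih => exact Mat.app j r s p q ih

theorem Mat.mono {α α' β β' : N → N → Prop} (h : ∀ x y, α x y → α' x y)
    (h' : ∀ x y, β x y → β' x y) {p q r s : N} (hm : Mat g α β p q r s) :
    Mat g α' β' p q r s := by
  induction hm with
  | row a a' ha => exact Mat.row a a' (h _ _ ha)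
  | col b b' hb => exact Mat.col b b' (h' _ _ hb)
  | app j p q r s _ ih => exact Mat.app j p q r s ih

/-- a difference relation on the pairs gives a group for which the operations are additive -/
theorem group_of_rel [Finite N] (hid : Idem g) (hne : ∃ x y : N, x ≠ y)
    (hss : ∀ S : Set N, ClosedSet g S → (∃ x ∈ S, ∃ y ∈ S, x ≠ y) → ∀ z, z ∈ S)
    (Th : N × N → N × N → Prop) (hrefl : ∀ u, Th u u) (hsymm : ∀ u v, Th u v → Th v u)
    (htrans : ∀ u v w, Th u v → Th v w → Th u w) (hdiag : ∀ x y, Th (x, x) (y, y))
    (hcomp : ∀ j (u v : Fin (k j) → N × N), (∀ a, Th (u a) (v a)) →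
      Th (g j fun a => (u a).1, g j fun a => (u a).2) (g j fun a => (v a).1, g j fun a => (v a).2))
    (hinj1 : ∀ x y b, Th (x, b) (y, b) → x = y) (hinj2 : ∀ x b c, Th (x, b) (x, c) → b = c)
    (hex : ∀ u v b, ∃ z, Th (u, v) (z, b)) :
    ∃ _ : AddCommGroup N, ∀ j (x y : Fin (k j) → N),
      g j (fun a => x a + y a) = g j x + g j y := by
  classical
  obtain ⟨o, -, -⟩ := hne
  choose add hadd using fun x y => hex x o y
  have huniq : ∀ x y z, Th (x, o) (z, y) → z = add x y := by
    intro x y z h
    exact hinj1 _ _ _ (htrans _ _ _ (hsymm _ _ h) (hadd x y))
  have hhom : ∀ j (x y : Fin (k j) → N), g j (fun a => add (x a) (y a)) = add (g j x) (g j y) := by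
    intro j x y
    refine huniq _ _ _ ?_
    have h1 := hcomp j (fun a => (x a, o)) (fun a => (add (x a) (y a), y a))
      (fun a => hadd (x a) (y a))
    dsimp only at h1
    rw [hid j o] at h1
    exact h1
  have hzero_add : ∀ y, add o y = y := fun y => (huniq o y y (hdiag o y)).symm
  have hadd_zero : ∀ x, add x o = x := fun x => (huniq x o x (hrefl _)).symm
  have hcomm : ∀ x y, add x y = add y x := by
    intro x y
    by_cases hx : x = o
    · subst hx
      rw [hzero_add, hadd_zero]
    refine hss {y | add x y = add y x} ?_ ⟨o, ?_, x, rfl, fun h => hx h.symm⟩ y
    · intro j z hz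
      change add x (g j z) = add (g j z) x
      have h1 := hhom j (fun _ => x) z
      have h2 := hhom j z (fun _ => x)
      rw [hid j x] at h1 h2
      rw [← h1, ← h2]
      congr 1
      funext a
      exact hz a
    · change add x o = add o x
      rw [hzero_add, hadd_zero]
  have hleft : ∀ x y z, add x (add z y) = add z (add x y) := by
    intro x y z
    by_cases hz : z = o
    · subst hz
      rw [hzero_add, hzero_add]
    refine hss {x | add x (add z y) = add z (add x y)} ?_ ⟨o, ?_, z, rfl, fun h => hz h.symm⟩ x
    · intro j t ht
      change add (g j t) (add z y) = add z (add (g j t) y)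
      have h1 := hhom j t (fun _ => add z y)
      have h2 := hhom j t (fun _ => y)
      have h3 := hhom j (fun _ => z) (fun a => add (t a) y)
      rw [hid j (add z y)] at h1
      rw [hid j y] at h2
      rw [hid j z, h2] at h3
      rw [← h1, ← h3]
      congr 1
      funext a
      exact ht a
    · change add o (add z y) = add z (add o y)
      rw [hzero_add, hzero_add]
  have hassoc : ∀ x y z, add (add x y) z = add x (add y z) := by
    intro x y z
    rw [hcomm (add x y) z, hleft z y x, hcomm z y]
  have hinj : ∀ x, Function.Injective (add x) := by
    intro x y y' h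
    have h1 := hadd x y
    have h2 := hadd x y'
    rw [← h] at h2
    exact hinj2 _ _ _ (htrans _ _ _ (hsymm _ _ h1) h2)
  have hneg : ∀ x, ∃ y, add y x = o := by
    intro x
    obtain ⟨y, hy⟩ := Finite.surjective_of_injective (hinj x) o
    exact ⟨y, by rw [hcomm, hy]⟩
  choose neg hneg using hneg
  letI : Add N := ⟨add⟩
  letI : Zero N := ⟨o⟩
  letI : Neg N := ⟨neg⟩
  letI G : AddGroup N := AddGroup.ofLeftAxioms hassoc hzero_add hneg
  letI G' : AddCommGroup N := { G with add_comm := hcomm }
  exact ⟨G', hhom⟩

/-- the structure of the finite idempotent algebras without proper nontrivial subalgebras that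
satisfy the term condition -/
theorem exists_group [Finite N] (hid : Idem g) (hne : ∃ x y : N, x ≠ y)
    (hss : ∀ S : Set N, ClosedSet g S → (∃ x ∈ S, ∃ y ∈ S, x ≠ y) → ∀ z, z ∈ S)
    (TC : ∀ p q r s, Mat g (fun _ _ => True) (fun _ _ => True) p q r s → p = q → r = s) :
    ∃ _ : AddCommGroup N, ∀ j (x y : Fin (k j) → N),
      g j (fun a => x a + y a) = g j x + g j y := by
  classical
  by_cases h3 : ∃ x y z : N, x ≠ y ∧ x ≠ z ∧ y ≠ z
  · set R : N × N → N × N → Prop :=
      fun u v => Mat g (fun _ _ => True) (fun _ _ => True) u.1 u.2 v.1 v.2 with hR
    have hRsymm : ∀ u v, R u v → R v u := fun u v h => h.swap fun _ _ _ => trivial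
    have hTC' : ∀ u v, ReflTransGen R u v → u.1 = u.2 → v.1 = v.2 := by
      intro u v h
      induction h with
      | refl => exact id
      | tail _ hstep ih => exact fun h => TC _ _ _ _ hstep (ih h)
    have hsymm : ∀ u v, ReflTransGen R u v → ReflTransGen R v u := fun u v h => rsymm hRsymm h
    have hcomp : ∀ j (u v : Fin (k j) → N × N), (∀ a, ReflTransGen R (u a) (v a)) →
        ReflTransGen R (g j fun a => (u a).1, g j fun a => (u a).2)
          (g j fun a => (v a).1, g j fun a => (v a).2) := by
      intro j u v h
      refine lift_chain R R (fun x : Fin (k j) → N × N =>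
        ((g j fun a => (x a).1, g j fun a => (x a).2) : N × N)) (fun _ => True) ?_ u v
        (fun _ => trivial) (fun _ => trivial) h
      intro x a s t _ hst
      refine Mat.app j _ _ _ _ fun b => ?_
      by_cases hb : b = a
      · subst hb
        simpa using hst
      · rw [Function.update_of_ne hb, Function.update_of_ne hb]
        exact Mat.col _ _ trivial
    have hdiag : ∀ x y, ReflTransGen R (x, x) (y, y) :=
      fun x y => ReflTransGen.single (Mat.row x y trivial)
    have hcl : ∀ b x, ClosedSet g {y | ReflTransGen R (x, b) (y, b)} := by
      intro b x j t ht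
      have h1 := hcomp j (fun _ => (x, b)) (fun a => (t a, b)) ht
      dsimp only at h1
      rw [hid j x, hid j b] at h1
      exact h1
    have hcl' : ∀ b x, ClosedSet g {y | ReflTransGen R (x, b) (x, y)} := by
      intro b x j t ht
      have h1 := hcomp j (fun _ => (x, b)) (fun a => (x, t a)) ht
      dsimp only at h1
      rw [hid j x, hid j b] at h1
      exact h1
    have hinj1 : ∀ x y b, ReflTransGen R (x, b) (y, b) → x = y := by
      intro x y b h
      by_contra hxy
      have h1 := hss _ (hcl b x) ⟨x, ReflTransGen.refl, y, h, hxy⟩ b
      have h2 : x = b := hTC' _ _ (hsymm _ _ h1) rfl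
      have h3 : y = b := hTC' _ _ ((hsymm _ _ h1).trans h) rfl
      exact hxy (h2.trans h3.symm)
    have hinj2 : ∀ x b c, ReflTransGen R (x, b) (x, c) → b = c := by
      intro x b c h
      by_contra hbc
      have h1 := hss _ (hcl' b x) ⟨b, ReflTransGen.refl, c, h, hbc⟩ x
      have h2 : x = b := hTC' _ _ (hsymm _ _ h1) rfl
      have h3 : x = c := hTC' _ _ ((hsymm _ _ h1).trans h) rfl
      exact hbc (h2.symm.trans h3)
    have hex0 : ∀ x b, x ≠ b → ∀ y, ∃ z, ReflTransGen R (x, y) (z, b) := by
      intro x b hxb
      refine hss {y | ∃ z, ReflTransGen R (x, y) (z, b)} ?_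
        ⟨x, ⟨b, hdiag x b⟩, b, ⟨x, ReflTransGen.refl⟩, hxb⟩
      intro j t ht
      choose z hz using ht
      refine ⟨g j z, ?_⟩
      have h1 := hcomp j (fun a => (x, t a)) (fun a => (z a, b)) hz
      dsimp only at h1
      rw [hid j x, hid j b] at h1
      exact h1
    have hex : ∀ u v b, ∃ z, ReflTransGen R (u, v) (z, b) := by
      intro u v b
      by_cases hub : u = b
      swap
      · exact hex0 u b hub v
      subst hub
      obtain ⟨c, hcu, hcv⟩ : ∃ c, c ≠ u ∧ c ≠ v := by
        obtain ⟨x, y, z, hxy, hxz, hyz⟩ := h3
        by_contra hcon
        push Not at hcon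
        by_cases h1 : x = u
        · subst h1
          have e1 := hcon y (fun h => hxy h.symm)
          have e2 := hcon z (fun h => hxz h.symm)
          exact hyz (e1.trans e2.symm)
        · have e1 := hcon x h1
          by_cases h2 : y = u
          · have e2 := hcon z (fun h => hyz (h2.trans h.symm))
            exact hxz (e1.trans e2.symm)
          · have e2 := hcon y h2
            exact hxy (e1.trans e2.symm)
      obtain ⟨z', hz'⟩ := hex0 u c (fun h => hcu h.symm) v
      have hz'u : z' ≠ u := by
        intro h
        subst h
        exact hcv (hinj2 _ _ _ hz').symm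
      obtain ⟨z, hz⟩ := hex0 z' u hz'u c
      exact ⟨z, hz'.trans hz⟩
    exact group_of_rel hid hne hss (ReflTransGen R) (fun _ => ReflTransGen.refl) hsymm
      (fun _ _ _ h h' => h.trans h') hdiag hcomp hinj1 hinj2 hex
  · -- two elements
    push Not at h3
    have htwo : ∀ x y z : N, x ≠ y → x ≠ z → y = z := h3
    -- changing one argument
    have hflip : ∀ j (a : Fin (k j)) (u v : Fin (k j) → N) (s t : N),
        g j (Function.update u a s) = g j (Function.update u a t) →
        g j (Function.update v a s) = g j (Function.update v a t) := by
      intro j a u v s t h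
      refine TC _ _ _ _ (Mat.app j _ _ _ _ fun b => ?_) h
      by_cases hb : b = a
      · subst hb
        simp only [Function.update_self]
        exact Mat.col _ _ trivial
      · rw [Function.update_of_ne hb, Function.update_of_ne hb, Function.update_of_ne hb,
          Function.update_of_ne hb]
        exact Mat.row _ _ trivial
    have hcomp : ∀ j (u v : Fin (k j) → N × N),
        (∀ a, (u a).1 = (u a).2 ↔ (v a).1 = (v a).2) →
        ((g j fun a => (u a).1) = (g j fun a => (u a).2) ↔
          (g j fun a => (v a).1) = (g j fun a => (v a).2)) := by
      intro j u v h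
      have key : ∀ S : Finset (Fin (k j)),
          ((g j fun a => (u a).1) = (g j fun a => (u a).2) ↔
          (g j fun a => if a ∈ S then (v a).1 else (u a).1) =
            (g j fun a => if a ∈ S then (v a).2 else (u a).2)) := by
        intro S
        induction S using Finset.induction_on with
        | empty => simp
        | insert a S ha ih =>
          rw [ih]
          set z1 : Fin (k j) → N := fun b => if b ∈ S then (v b).1 else (u b).1 with hz1
          set z2 : Fin (k j) → N := fun b => if b ∈ S then (v b).2 else (u b).2 with hz2
          have e1 : z1 = Function.update z1 a (u a).1 := by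
            funext b
            by_cases hb : b = a
            · subst hb
              simp [hz1, ha]
            · simp [Function.update_of_ne hb]
          have e2 : z2 = Function.update z2 a (u a).2 := by
            funext b
            by_cases hb : b = a
            · subst hb
              simp [hz2, ha]
            · simp [Function.update_of_ne hb]
          have e3 : (fun b => if b ∈ insert a S then (v b).1 else (u b).1) =
              Function.update z1 a (v a).1 := by
            funext b
            by_cases hb : b = a
            · subst hb
              simp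
            · simp [Function.update_of_ne hb, hz1, hb]
          have e4 : (fun b => if b ∈ insert a S then (v b).2 else (u b).2) =
              Function.update z2 a (v a).2 := by
            funext b
            by_cases hb : b = a
            · subst hb
              simp
            · simp [Function.update_of_ne hb, hz2, hb]
          rw [e3, e4]
          conv_lhs => rw [e1, e2]
          -- the values at `a`
          by_cases hu : (u a).1 = (u a).2
          · have hv := (h a).1 hu
            rw [← hu, ← hv]
            -- a row
            have hrow : ∀ s t : N, g j (Function.update z1 a s) = g j (Function.update z2 a s) →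
                g j (Function.update z1 a t) = g j (Function.update z2 a t) := by
              intro s t hst
              by_cases hst' : s = t
              · rw [← hst']; exact hst
              by_contra hne'
              -- flipping `a` changes exactly one of the two values
              by_cases hc : g j (Function.update z1 a s) = g j (Function.update z1 a t)
              · have hc' := hflip j a z1 z2 s t hc
                exact hne' (hc.symm.trans (hst.trans hc'))
              · have hc' : g j (Function.update z2 a s) ≠ g j (Function.update z2 a t) :=
                  fun h' => hc (hflip j a z2 z1 s t h')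
                refine hne' (htwo _ _ _ hc ?_)
                rw [hst]
                exact hc'
            exact ⟨hrow _ _, hrow _ _⟩
          · have hv : (v a).1 ≠ (v a).2 := fun h' => hu ((h a).2 h')
            by_cases huv : (u a).1 = (v a).1
            · have huv' : (u a).2 = (v a).2 := by
                refine htwo (u a).1 _ _ hu ?_
                rw [huv]
                exact hv
              rw [huv, huv']
            · have e5 : (u a).2 = (v a).1 := htwo (u a).1 _ _ hu huv
              have e6 : (v a).2 = (u a).1 := (htwo (v a).1 _ _ hv (fun h' => huv h'.symm))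
              rw [e6, ← e5]
              set s := (u a).1
              set t := (u a).2
              by_cases hc : g j (Function.update z1 a s) = g j (Function.update z1 a t)
              · have hc' := hflip j a z1 z2 s t hc
                rw [hc, hc']
              · have hc' : g j (Function.update z2 a s) ≠ g j (Function.update z2 a t) :=
                  fun h' => hc (hflip j a z2 z1 s t h')
                constructor
                · intro h'
                  -- z1 s = z2 t; z1 t ≠ z1 s; z2 s ≠ z2 t
                  refine (htwo (g j (Function.update z1 a s)) _ _ hc ?_)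
                  rw [h']
                  exact fun h'' => hc' h''.symm
                · intro h'
                  refine (htwo (g j (Function.update z1 a t)) _ _ (fun h'' => hc h''.symm) ?_)
                  rw [h']
                  exact hc'
      have := key Finset.univ
      simpa using this
    obtain ⟨x₀, x₁, hx⟩ := hne
    refine group_of_rel hid ⟨x₀, x₁, hx⟩ hss (fun u v => (u.1 = u.2 ↔ v.1 = v.2))
      (fun _ => Iff.rfl) (fun _ _ h => h.symm) (fun _ _ _ h h' => h.trans h') ?_ hcomp ?_ ?_ ?_
    · intro x y
      simp
    · intro x y b h
      dsimp only at h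
      by_contra hxy
      by_cases hxb : x = b
      · exact hxy (hxb.trans (h.1 hxb).symm)
      · by_cases hyb : y = b
        · exact hxb (h.2 hyb)
        · exact hxy (htwo b x y (fun h' => hxb h'.symm) (fun h' => hyb h'.symm))
    · intro x b c h
      dsimp only at h
      by_contra hbc
      by_cases hxb : x = b
      · exact hbc (hxb.symm.trans (h.1 hxb))
      · by_cases hxc : x = c
        · exact hxb (h.2 hxc)
        · exact hbc (htwo x b c hxb hxc)
    · intro u v b
      by_cases huv : u = v
      · exact ⟨b, by simp [huv]⟩
      · by_cases hb : b = x₀
        · refine ⟨x₁, ?_⟩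
          simp only [huv, false_iff]
          rw [hb]
          exact fun h => hx h.symm
        · refine ⟨x₀, ?_⟩
          simp only [huv, false_iff]
          exact fun h => hb h.symm

end

end Helper90K9.AB
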