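import Pool.Agent.Helper90K9.AB.Split

/-!
# The size of closed codes
-/

set_option autoImplicit false

namespace Helper90K9.AB

open Relation Finset

section

variable {ι A : Type} [Fintype ι] [DecidableEq ι] [DecidableEq A]

/-- the numbers of the letters -/
noncomputable def lett (C : Finset (ι → A)) (i : ι) : ℝ := ((C.image fun x => x i).card : ℝ)

theorem lett_nonneg (C : Finset (ι → A)) (i : ι) : 0 ≤ lett C i := Nat.cast_nonneg _

theorem lett_mono {C D : Finset (ι → A)} (h : D ⊆ C) (i : ι) : lett D i ≤ lett C i := by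
  unfold lett
  exact_mod_cast card_le_card (image_subset_image h)

theorem lett_pos {C : Finset (ι → A)} (h : C.Nonempty) (i : ι) : 1 ≤ lett C i := by
  unfold lett
  exact_mod_cast card_pos.2 (h.image _)

/-- the analytic part -/
theorem sum_prod_le {K : Type} (S : Finset K) (a : ι → ℝ) (b : K → ι → ℝ) (ha : ∀ i, 0 < a i)
    (hb : ∀ k ∈ S, ∀ i, 0 ≤ b k i) (hba : ∀ k ∈ S, ∀ i, b k i ≤ a i) (I : Finset ι)
    (hI : 0 < I.card) (hsum : ∀ i ∈ I, ∑ k ∈ S, b k i ≤ a i) :
    ∑ k ∈ S, ∏ i, (b k i) ^ ((1 : ℝ) / I.card) ≤ ∏ i, (a i) ^ ((1 : ℝ) / I.card) := by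
  have hd : (0 : ℝ) < I.card := by exact_mod_cast hI
  have hd' : (0 : ℝ) ≤ (1 : ℝ) / I.card := by positivity
  have h1 : ∀ k ∈ S, ∏ i, (b k i) ^ ((1 : ℝ) / I.card) ≤
      (∏ i, (a i) ^ ((1 : ℝ) / I.card)) * ∑ i ∈ I, (1 : ℝ) / I.card * (b k i / a i) := by
    intro k hk
    have e1 : ∏ i, (b k i) ^ ((1 : ℝ) / I.card) =
        (∏ i, (a i) ^ ((1 : ℝ) / I.card)) * ∏ i, (b k i / a i) ^ ((1 : ℝ) / I.card) := by
      rw [← prod_mul_distrib]
      refine prod_congr rfl fun i _ => ?_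
      rw [← Real.mul_rpow (ha i).le (div_nonneg (hb k hk i) (ha i).le)]
      congr 1
      rw [mul_div_cancel₀]
      exact (ha i).ne'
    rw [e1]
    refine mul_le_mul_of_nonneg_left ?_ (prod_nonneg fun i _ => Real.rpow_nonneg (ha i).le _)
    have h2 : ∏ i, (b k i / a i) ^ ((1 : ℝ) / I.card) ≤
        ∏ i ∈ I, (b k i / a i) ^ ((1 : ℝ) / I.card) := by
      rw [← prod_mul_prod_compl I]
      have h3 : ∏ i ∈ Iᶜ, (b k i / a i) ^ ((1 : ℝ) / I.card) ≤ 1 := by
        refine prod_le_one (fun i _ => Real.rpow_nonneg (div_nonneg (hb k hk i) (ha i).le) _) ?_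
        intro i _
        exact Real.rpow_le_one (div_nonneg (hb k hk i) (ha i).le)
          ((div_le_one (ha i)).2 (hba k hk i)) hd'
      calc _ ≤ (∏ i ∈ I, (b k i / a i) ^ ((1 : ℝ) / I.card)) * 1 :=
            mul_le_mul_of_nonneg_left h3
              (prod_nonneg fun i _ => Real.rpow_nonneg (div_nonneg (hb k hk i) (ha i).le) _)
        _ = _ := mul_one _
    refine h2.trans ?_
    refine Real.geom_mean_le_arith_mean_weighted I (fun _ => (1 : ℝ) / I.card)
      (fun i => b k i / a i) (fun _ _ => hd') ?_ (fun i _ => div_nonneg (hb k hk i) (ha i).le)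
    rw [sum_const, nsmul_eq_mul, mul_one_div_cancel hd.ne']
  refine (sum_le_sum h1).trans ?_
  rw [← mul_sum, sum_comm]
  have h3 : ∑ i ∈ I, ∑ k ∈ S, (1 : ℝ) / I.card * (b k i / a i) ≤ 1 := by
    calc ∑ i ∈ I, ∑ k ∈ S, (1 : ℝ) / I.card * (b k i / a i)
        ≤ ∑ _i ∈ I, (1 : ℝ) / I.card := by
          refine sum_le_sum fun i hi => ?_
          rw [← mul_sum, ← sum_div]
          calc (1 : ℝ) / I.card * ((∑ k ∈ S, b k i) / a i) ≤ (1 : ℝ) / I.card * 1 :=
                mul_le_mul_of_nonneg_left ((div_le_one (ha i)).2 (hsum i hi)) hd'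
            _ = _ := mul_one _
      _ = 1 := by rw [sum_const, nsmul_eq_mul, mul_one_div_cancel hd.ne']
  calc _ ≤ (∏ i, (a i) ^ ((1 : ℝ) / I.card)) * 1 :=
        mul_le_mul_of_nonneg_left h3 (prod_nonneg fun i _ => Real.rpow_nonneg (ha i).le _)
    _ = _ := mul_one _


open Classical in
/-- the bound -/
theorem card_le {J : Type} {k : J → ℕ} (f : ι → ∀ j, (Fin (k j) → A) → A)
    (hid : ∀ i, Idem (f i)) {d : ℕ} (hd : 1 ≤ d) :
    ∀ (m : ℕ) (C : Finset (ι → A)), C.card = m →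
      (∀ j (x : Fin (k j) → ι → A), (∀ a, x a ∈ C) → (fun i => f i j fun a => x a i) ∈ C) →
      (∀ x ∈ C, ∀ y ∈ C, x ≠ y → d ≤ (univ.filter fun i => x i ≠ y i).card) →
      ∃ D ⊆ C, (∀ x ∈ D, ∀ y ∈ D, x ≠ y →
        d ≤ (univ.filter fun i => Affine (f i) ∧ x i ≠ y i).card) ∧
        (C.card : ℝ) ≤ D.card * ∏ i, (lett C i) ^ ((1 : ℝ) / d) := by
  intro m
  induction m using Nat.strong_induction_on with
  | _ m ih =>
  intro C hCm hCf hCd
  rcases C.eq_empty_or_nonempty with rfl | hne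
  · exact ⟨∅, subset_rfl, by simp, by simp⟩
  have hd0 : (0 : ℝ) ≤ (1 : ℝ) / d := by positivity
  have hprod : (1 : ℝ) ≤ ∏ i, (lett C i) ^ ((1 : ℝ) / d) := by
    have h3 : ∏ i : ι, (1 : ℝ) ≤ ∏ i, (lett C i) ^ ((1 : ℝ) / d) :=
      prod_le_prod (fun _ _ => zero_le_one) fun i _ =>
        Real.one_le_rpow (lett_pos hne i) hd0
    simpa using h3
  -- the operations on the words
  let g : ∀ j, (Fin (k j) → ↥C) → ↥C := fun j x => ⟨_, hCf j (fun a => (x a).1) fun a => (x a).2⟩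
  have hg : Idem g := by
    intro j a
    refine Subtype.ext (funext fun i => ?_)
    exact hid i j (a.1 i)
  rcases split_or hg (fun x : ↥C => x.1) f (fun _ _ _ => rfl) hd
    (fun x y hxy => hCd x.1 x.2 y.1 y.2 fun h => hxy (Subtype.ext h)) with h | h
  swap
  · refine ⟨C, subset_rfl, ?_, ?_⟩
    · intro x hx y hy hxy
      exact h ⟨x, hx⟩ ⟨y, hy⟩ fun h' => hxy (congrArg Subtype.val h')
    · exact le_mul_of_one_le_right (Nat.cast_nonneg _) hprod
  obtain ⟨I₀, hI₀, htot₀⟩ := h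
  obtain ⟨I, hII₀, hIcard⟩ := exists_subset_card_eq hI₀
  set ψ : ↥C → ↥C → Prop := ReflTransGen (fun x y => ∃ i ∈ I, x.1 i = y.1 i) with hψ
  have htot : ¬ ∀ x y, ψ x y := by
    intro h
    apply htot₀
    intro x y
    refine rlift id ?_ (h x y)
    rintro a b ⟨i, hi, hab⟩
    exact ⟨i, hII₀ hi, hab⟩
  have hψrefl : ∀ x, ψ x x := fun x => ReflTransGen.refl
  have hψtrans : ∀ x y z, ψ x y → ψ y z → ψ x z := fun x y z h h' => ReflTransGen.trans h h'
  have hψsymm : ∀ x y, ψ x y → ψ y x := fun x y h =>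
    rsymm (fun a b ⟨i, hi, hab⟩ => ⟨i, hi, hab.symm⟩) h
  have hψg : ∀ x j (y : Fin (k j) → ↥C), (∀ a, ψ x (y a)) → ψ x (g j y) := by
    intro x j y hy
    have h1 : ψ (g j fun _ => x) (g j y) := by
      refine lift_chain (fun x y : ↥C => ∃ i ∈ I, x.1 i = y.1 i)
        (fun x y : ↥C => ∃ i ∈ I, x.1 i = y.1 i) (g j) (fun _ => True) ?_ (fun _ => x) y
        (fun _ => trivial) (fun _ => trivial) hy
      rintro z a u v _ ⟨i, hi, huv⟩
      refine ⟨i, hi, ?_⟩
      change f i j _ = f i j _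
      congr 1
      funext b
      by_cases hb : b = a
      · subst hb
        simpa using huv
      · rw [Function.update_of_ne hb, Function.update_of_ne hb]
    rwa [hg j x] at h1
  -- the classes
  set cls : ↥C → Finset (ι → A) := fun x =>
    (univ.filter fun y : ↥C => ψ x y).map (Function.Embedding.subtype _) with hcls
  have hmem : ∀ (x : ↥C) (y : ι → A), y ∈ cls x ↔ ∃ h : y ∈ C, ψ x ⟨y, h⟩ := by
    intro x y
    simp only [hcls, mem_map, mem_filter, mem_univ, true_and, Function.Embedding.subtype_apply]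
    constructor
    · rintro ⟨a, ha, rfl⟩
      exact ⟨a.2, ha⟩
    · rintro ⟨h, hy⟩
      exact ⟨⟨y, h⟩, hy, rfl⟩
  have hsubC : ∀ x, cls x ⊆ C := by
    intro x y hy
    exact ((hmem x y).1 hy).1
  have hcls_eq : ∀ x y, cls x = cls y ↔ ψ x y := by
    intro x y
    constructor
    · intro h
      have : y.1 ∈ cls x := by
        rw [h]
        exact (hmem y y.1).2 ⟨y.2, hψrefl y⟩
      exact ((hmem x y.1).1 this).2
    · intro h
      ext z
      rw [hmem, hmem]
      constructor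
      · rintro ⟨hz, h'⟩
        exact ⟨hz, hψtrans _ _ _ (hψsymm _ _ h) h'⟩
      · rintro ⟨hz, h'⟩
        exact ⟨hz, hψtrans _ _ _ h h'⟩
  have hlt : ∀ x, (cls x).card < m := by
    intro x
    rw [← hCm]
    refine card_lt_card ⟨hsubC x, ?_⟩
    intro hsub
    apply htot
    intro y z
    have h1 := ((hmem x y.1).1 (hsub y.2)).2
    have h2 := ((hmem x z.1).1 (hsub z.2)).2
    exact hψtrans _ _ _ (hψsymm _ _ h1) h2
  have hIH : ∀ x, ∃ D ⊆ cls x, (∀ x ∈ D, ∀ y ∈ D, x ≠ y →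
      d ≤ (univ.filter fun i => Affine (f i) ∧ x i ≠ y i).card) ∧
      ((cls x).card : ℝ) ≤ D.card * ∏ i, (lett (cls x) i) ^ ((1 : ℝ) / d) := by
    intro x
    refine ih _ (hlt x) (cls x) rfl ?_ ?_
    · intro j y hy
      have hy' : ∀ a, ∃ h : y a ∈ C, ψ x ⟨y a, h⟩ := fun a => (hmem x _).1 (hy a)
      choose h1 h2 using hy'
      exact (hmem x _).2 ⟨_, hψg x j (fun a => ⟨y a, h1 a⟩) h2⟩
    · intro a ha b hb
      exact hCd a (hsubC x ha) b (hsubC x hb)
  choose D hDsub hDd hDcard using hIH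
  set S : Finset (Finset (ι → A)) := univ.image cls with hS
  have hcard : C.card = ∑ D ∈ S, D.card := by
    have h1 := card_eq_sum_card_image cls (univ : Finset ↥C)
    rw [card_univ, Fintype.card_coe] at h1
    rw [h1]
    refine sum_congr rfl fun D hD => ?_
    obtain ⟨x, _, rfl⟩ := mem_image.1 hD
    rw [hcls, card_map]
    congr 1
    ext y
    simp only [mem_filter, mem_univ, true_and]
    have h2 := hcls_eq y x
    constructor
    · intro h
      exact hψsymm _ _ (h2.1 h)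
    · intro h
      exact h2.2 (hψsymm _ _ h)
  have hmain := sum_prod_le S (lett C) (fun D i => lett D i)
    (fun i => lt_of_lt_of_le one_pos (lett_pos hne i)) (fun _ _ i => lett_nonneg _ i)
    (by
      intro D hD i
      obtain ⟨x, _, rfl⟩ := mem_image.1 hD
      exact lett_mono (hsubC x) i) I (by omega) (by
      intro i hi
      unfold lett
      rw [← Nat.cast_sum, Nat.cast_le, ← card_biUnion]
      · refine card_le_card ?_
        intro q hq
        obtain ⟨D, hD, hq⟩ := mem_biUnion.1 hq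
        obtain ⟨x, _, rfl⟩ := mem_image.1 hD
        exact image_subset_image (hsubC x) hq
      · intro D hD D' hD' hne'
        obtain ⟨x, _, rfl⟩ := mem_image.1 hD
        obtain ⟨y, _, rfl⟩ := mem_image.1 hD'
        change Disjoint _ _
        rw [disjoint_left]
        intro q hq hq'
        obtain ⟨a, ha, rfl⟩ := mem_image.1 hq
        obtain ⟨b, hb, hab⟩ := mem_image.1 hq'
        obtain ⟨ha', ha⟩ := (hmem x a).1 ha
        obtain ⟨hb', hb⟩ := (hmem y b).1 hb
        apply hne'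
        rw [hcls_eq]
        refine hψtrans _ _ _ ha (hψtrans _ _ _ ?_ (hψsymm _ _ hb))
        exact ReflTransGen.single ⟨i, hi, hab.symm⟩)
  rw [hIcard] at hmain
  -- the class with the largest `D`
  obtain ⟨c₀, hc₀⟩ := hne
  obtain ⟨x₀, _, hx₀⟩ := exists_max_image (univ : Finset ↥C) (fun x => (D x).card)
    ⟨⟨c₀, hc₀⟩, mem_univ _⟩
  refine ⟨D x₀, (hDsub x₀).trans (hsubC x₀), hDd x₀, ?_⟩
  calc (C.card : ℝ) = ∑ D ∈ S, (D.card : ℝ) := by rw [hcard]; push_cast; rfl
    _ ≤ ∑ E ∈ S, ((D x₀).card : ℝ) * ∏ i, (lett E i) ^ ((1 : ℝ) / d) := by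
        refine sum_le_sum fun E hE => ?_
        obtain ⟨x, _, rfl⟩ := mem_image.1 hE
        refine (hDcard x).trans (mul_le_mul_of_nonneg_right ?_
          (prod_nonneg fun i _ => Real.rpow_nonneg (lett_nonneg _ _) _))
        exact_mod_cast hx₀ x (mem_univ _)
    _ = ((D x₀).card : ℝ) * ∑ E ∈ S, ∏ i, (lett E i) ^ ((1 : ℝ) / d) := by rw [mul_sum]
    _ ≤ _ := mul_le_mul_of_nonneg_left hmain (Nat.cast_nonneg _)

end

end Helper90K9.AB
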