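import Pool.Agent.Helper90K9.AB.Aff

/-!
# Closed codes at a coordinate with an affine set
-/

set_option autoImplicit false

namespace Helper90K9.AB

open Finset

/-- the number of nonzero entries -/
noncomputable def wt {n p : ℕ} (x : Fin n → ZMod p) : ℕ := by
  classical exact (univ.filter fun i => x i ≠ 0).card

theorem sum_pow_wt {n p : ℕ} [Fact p.Prime] (t : ℝ) :
    ∑ x : Fin n → ZMod p, t ^ wt x = (1 + (p - 1) * t) ^ n := by
  classical
  have h1 : ∀ x : Fin n → ZMod p, t ^ wt x = ∏ i, (if x i ≠ 0 then t else 1) := by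
    intro x
    rw [prod_ite, prod_const_one, mul_one, prod_const]
    rfl
  rw [sum_congr rfl fun x _ => h1 x]
  have h2 := (Finset.prod_univ_sum (fun _ : Fin n => (univ : Finset (ZMod p)))
    (fun _ a => if a ≠ 0 then t else (1 : ℝ)))
  rw [Fintype.piFinset_univ] at h2
  rw [← h2]
  rw [prod_const, card_univ, Fintype.card_fin]
  congr 1
  rw [sum_ite, sum_const, sum_const, nsmul_eq_mul, nsmul_eq_mul, mul_one]
  have h3 : (univ.filter fun a : ZMod p => ¬ a ≠ 0) = {0} := by
    ext a
    simp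
  have h4 : (univ.filter fun a : ZMod p => a ≠ 0).card = p - 1 := by
    have := Finset.card_filter_add_card_filter_not (s := (univ : Finset (ZMod p)))
      (fun a : ZMod p => a ≠ 0)
    rw [h3, card_singleton, card_univ, ZMod.card] at this
    omega
  have hp : 1 ≤ p := (Fact.out : p.Prime).one_lt.le
  rw [h3, h4, card_singleton, Nat.cast_sub hp]
  push_cast
  ring

theorem card_ball_le {n p : ℕ} [Fact p.Prime] {δ : ℝ} (h0 : 0 < δ) (h1 : δ ≤ 1 / 2) :
    ((univ.filter fun x : Fin n → ZMod p => (wt x : ℝ) ≤ δ * n).card : ℝ) ≤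
      Real.exp ((Real.binEntropy δ + δ * Real.log (p - 1)) * n) := by
  classical
  have hp : (2 : ℝ) ≤ p := by exact_mod_cast (Fact.out : p.Prime).two_le
  have hp1 : (0 : ℝ) < p - 1 := by linarith
  have hδ1 : 0 < 1 - δ := by linarith
  set t : ℝ := δ / ((1 - δ) * (p - 1)) with ht
  have htpos : 0 < t := by positivity
  have ht1 : t ≤ 1 := by
    rw [ht, div_le_one (by positivity)]
    nlinarith
  set B := univ.filter fun x : Fin n → ZMod p => (wt x : ℝ) ≤ δ * n with hB
  have h2 : (B.card : ℝ) * t ^ (δ * n) ≤ (1 + (p - 1) * t) ^ n := by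
    rw [← sum_pow_wt]
    calc (B.card : ℝ) * t ^ (δ * n) = ∑ _x ∈ B, t ^ (δ * n) := by
          rw [sum_const, nsmul_eq_mul]
      _ ≤ ∑ x ∈ B, t ^ wt x := by
          refine sum_le_sum fun x hx => ?_
          rw [← Real.rpow_natCast]
          exact Real.rpow_le_rpow_of_exponent_ge htpos ht1 (mem_filter.1 hx).2
      _ ≤ _ := sum_le_univ_sum_of_nonneg fun x => pow_nonneg htpos.le _
  have h3 : 1 + (p - 1) * t = (1 - δ)⁻¹ := by
    rw [ht]
    field_simp
    ring
  have h4 : (B.card : ℝ) ≤ (1 + (p - 1) * t) ^ n / t ^ (δ * n) := by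
    rw [le_div_iff₀ (Real.rpow_pos_of_pos htpos _)]
    exact h2
  refine h4.trans (le_of_eq ?_)
  rw [h3, Real.rpow_def_of_pos htpos, ← Real.exp_log (inv_pos.2 hδ1), ← Real.exp_nat_mul,
    ← Real.exp_sub]
  congr 1
  rw [ht, Real.log_div h0.ne' (by positivity), Real.log_mul hδ1.ne' hp1.ne', Real.binEntropy,
    Real.log_inv, Real.log_inv]
  ring

/-- linear codes -/
theorem exists_linear (n d p : ℕ) [Fact p.Prime] (hd : 1 ≤ d) :
    ∃ L : Submodule (ZMod p) (Fin n → ZMod p), (∀ x ∈ L, x ≠ 0 → d ≤ wt x) ∧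
      (∀ x, ∃ l ∈ L, wt (x - l) < d) := by
  classical
  have hfin : Finite (Submodule (ZMod p) (Fin n → ZMod p)) :=
    Finite.of_injective (fun L => (L : Set (Fin n → ZMod p))) SetLike.coe_injective
  obtain ⟨L, hL, hmax⟩ := Set.Finite.exists_maximal
    (s := {L : Submodule (ZMod p) (Fin n → ZMod p) | ∀ x ∈ L, x ≠ 0 → d ≤ wt x})
    (Set.toFinite _) ⟨⊥, fun x hx h => absurd ((Submodule.mem_bot _).1 hx) h⟩
  refine ⟨L, hL, fun x => ?_⟩
  have wt0 : wt (0 : Fin n → ZMod p) = 0 := by simp [wt]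
  by_cases hx : x ∈ L
  · refine ⟨x, hx, ?_⟩
    rw [sub_self, wt0]
    omega
  by_contra hcon
  push Not at hcon
  apply hx
  refine hmax (y := L ⊔ Submodule.span (ZMod p) {x}) ?_ le_sup_left
    (Submodule.mem_sup_right (Submodule.mem_span_singleton_self x))
  intro y hy hy0
  obtain ⟨l, hl, z, hz, rfl⟩ := Submodule.mem_sup.1 hy
  obtain ⟨c, rfl⟩ := Submodule.mem_span_singleton.1 hz
  by_cases hc : c = 0
  · subst hc
    rw [zero_smul, add_zero] at hy0 ⊢
    exact hL l hl hy0
  · have h1 := hcon (-(c⁻¹ • l)) (L.neg_mem (L.smul_mem _ hl))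
    refine h1.trans (le_of_eq ?_)
    unfold wt
    congr 1
    ext i
    simp only [mem_filter, mem_univ, true_and]
    have h2 : (x - -(c⁻¹ • l)) i = c⁻¹ * (l + c • x) i := by
      simp only [Pi.sub_apply, Pi.neg_apply, Pi.smul_apply, Pi.add_apply, smul_eq_mul]
      field_simp
      ring
    rw [h2, Ne, mul_eq_zero, not_or]
    constructor
    · exact fun h => h.2
    · exact fun h => ⟨inv_ne_zero hc, h⟩

theorem exists_linear_gv (n p : ℕ) [Fact p.Prime] {δ : ℝ} (h0 : 0 < δ) (h1 : δ ≤ 1 / 2) :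
    ∃ L : Submodule (ZMod p) (Fin n → ZMod p), (∀ x ∈ L, x ≠ 0 → δ * n ≤ wt x) ∧
      Real.exp ((Real.log 2 - Real.binEntropy δ) * n) ≤ Nat.card L := by
  classical
  rcases Nat.eq_zero_or_pos n with rfl | hn
  · refine ⟨⊥, fun x hx h => absurd ((Submodule.mem_bot _).1 hx) h, ?_⟩
    simp
  set d := ⌈δ * n⌉₊ with hd
  have hn' : (0 : ℝ) < n := by exact_mod_cast hn
  have hd1 : 1 ≤ d := Nat.ceil_pos.2 (by positivity)
  obtain ⟨L, hL, hcov⟩ := exists_linear n d p hd1
  refine ⟨L, fun x hx hx0 => (Nat.le_ceil _).trans (by exact_mod_cast hL x hx hx0), ?_⟩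
  have hp : (2 : ℝ) ≤ p := by exact_mod_cast (Fact.out : p.Prime).two_le
  -- counting
  set B := univ.filter fun x : Fin n → ZMod p => (wt x : ℝ) ≤ δ * n with hB
  have hLfin : Fintype L := Fintype.ofFinite L
  have h2 : p ^ n ≤ Nat.card L * B.card := by
    have h3 : (univ : Finset (Fin n → ZMod p)) ⊆
        ((univ : Finset L) ×ˢ B).image fun u => u.1.1 + u.2 := by
      intro x _
      obtain ⟨l, hl, hlt⟩ := hcov x
      rw [mem_image]
      refine ⟨(⟨l, hl⟩, x - l), ?_, by simp⟩
      rw [mem_product]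
      refine ⟨mem_univ _, ?_⟩
      rw [hB, mem_filter]
      refine ⟨mem_univ _, ?_⟩
      exact (Nat.lt_ceil.1 hlt).le
    have h4 := (card_le_card h3).trans card_image_le
    rw [card_univ, Fintype.card_fun, ZMod.card, Fintype.card_fin, card_product, card_univ,
      ← Nat.card_eq_fintype_card] at h4
    exact h4
  have h3 := card_ball_le (n := n) (p := p) h0 h1
  have h4 : (p : ℝ) ^ n ≤ Nat.card L * Real.exp ((Real.binEntropy δ + δ * Real.log (p - 1)) * n) :=
    calc (p : ℝ) ^ n ≤ Nat.card L * (B.card : ℝ) := by exact_mod_cast h2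
      _ ≤ _ := mul_le_mul_of_nonneg_left h3 (Nat.cast_nonneg _)
  have h5 : (p : ℝ) ^ n = Real.exp (Real.log p * n) := by
    rw [mul_comm, Real.exp_nat_mul, Real.exp_log (by linarith)]
  rw [h5] at h4
  have h6 : Real.log 2 ≤ Real.log p - δ * Real.log (p - 1) := by
    have hl : 0 ≤ Real.log ((p : ℝ) - 1) := Real.log_nonneg (by linarith)
    have h7 : Real.log 4 + Real.log ((p : ℝ) - 1) ≤ 2 * Real.log p := by
      rw [← Real.log_mul (by norm_num) (by linarith), ← Real.log_rpow (by linarith)]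
      apply Real.log_le_log (by nlinarith)
      norm_num
      nlinarith [sq_nonneg ((p : ℝ) - 2)]
    have h8 : Real.log 4 = 2 * Real.log 2 := by
      rw [show (4 : ℝ) = 2 ^ (2 : ℕ) by norm_num, Real.log_pow]
      push_cast
      ring
    nlinarith
  have h7 : Real.exp ((Real.log 2 - Real.binEntropy δ) * n) *
      Real.exp ((Real.binEntropy δ + δ * Real.log (p - 1)) * n) ≤ Real.exp (Real.log p * n) := by
    rw [← Real.exp_add]
    apply Real.exp_le_exp.2
    nlinarith
  exact le_of_mul_le_mul_right (h7.trans h4) (Real.exp_pos _)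

/-- closed codes -/
theorem exists_closed {A J : Type} {k : J → ℕ} {f : ∀ j, (Fin (k j) → A) → A} (hf : Affine f)
    (n : ℕ) {δ : ℝ} (h0 : 0 < δ) (h1 : δ ≤ 1 / 2) :
    ∃ C : Finset (Fin n → A),
      (∀ j (x : Fin (k j) → Fin n → A), (∀ a, x a ∈ C) → (fun i => f j fun a => x a i) ∈ C) ∧
      (∀ x ∈ C, ∀ y ∈ C, x ≠ y → δ * n ≤ Nat.card {i // x i ≠ y i}) ∧
      Real.exp ((Real.log 2 - Real.binEntropy δ) * n) ≤ C.card := by
  classical
  obtain ⟨p, s, φ, hp, hs, hφ, hM⟩ := hf
  have hp' : Fact p.Prime := ⟨hp⟩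
  obtain ⟨L, hL, hcard⟩ := exists_linear_gv n p h0 h1
  set C' : Finset (Fin n → Fin s → ZMod p) := univ.filter fun x => ∀ t, (fun i => x i t) ∈ L
    with hC'
  refine ⟨C'.image fun x i => φ (x i), ?_, ?_, ?_⟩
  · intro j x hx
    have hx' : ∀ a, ∃ y ∈ C', (fun i => φ (y i)) = x a := fun a => mem_image.1 (hx a)
    choose y hy hyx using hx'
    obtain ⟨M, hM⟩ := hM j
    refine mem_image.2 ⟨fun i => ∑ a, (M a).mulVec (y a i), ?_, ?_⟩
    · rw [hC', mem_filter]
      refine ⟨mem_univ _, fun t => ?_⟩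
      have h2 : (fun i => (∑ a, (M a).mulVec (y a i)) t) =
          ∑ a, ∑ u, M a t u • (fun i => y a i u) := by
        funext i
        simp [Finset.sum_apply, Matrix.mulVec, dotProduct]
      rw [h2]
      refine L.sum_mem fun a _ => L.sum_mem fun u _ => L.smul_mem _ ?_
      have := hy a
      rw [hC', mem_filter] at this
      exact this.2 u
    · funext i
      rw [← hM]
      congr 1
      funext a
      rw [← hyx a]
  · intro x hx y hy hxy
    obtain ⟨u, hu, rfl⟩ := mem_image.1 hx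
    obtain ⟨v, hv, rfl⟩ := mem_image.1 hy
    rw [hC', mem_filter] at hu hv
    have huv : u ≠ v := fun h => hxy (by rw [h])
    obtain ⟨i, hi⟩ := Function.ne_iff.1 huv
    obtain ⟨t, ht⟩ := Function.ne_iff.1 hi
    have h2 := hL ((fun i => u i t) - fun i => v i t) (L.sub_mem (hu.2 t) (hv.2 t)) (by
      intro h
      exact ht (sub_eq_zero.1 (congrFun h i)))
    refine h2.trans ?_
    rw [Nat.card_eq_fintype_card, Fintype.card_subtype]
    unfold wt
    norm_cast
    refine card_le_card fun i hi => ?_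
    rw [mem_filter] at hi ⊢
    refine ⟨mem_univ _, fun h => hi.2 ?_⟩
    have := hφ h
    change u i t - v i t = 0
    rw [this, sub_self]
  · refine hcard.trans ?_
    rw [card_image_of_injective _ (fun x y h => by
      funext i
      exact hφ (congrFun h i))]
    have hLfin : Fintype L := Fintype.ofFinite L
    rw [Nat.card_eq_fintype_card, ← card_univ]
    norm_cast
    refine card_le_card_of_injOn (fun l : L => fun i _ => l.1 i) ?_ ?_
    · intro l _
      rw [hC', mem_coe, mem_filter]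
      exact ⟨mem_univ _, fun t => l.2⟩
    · intro l _ l' _ h
      refine Subtype.ext (funext fun i => ?_)
      exact congrFun (congrFun h i) ⟨0, hs⟩

end Helper90K9.AB
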