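import Pool.Agent.Helper90K9.AB.Count

/-!
# Codes that are closed up to errors
-/

set_option autoImplicit false

namespace Helper90K9.AB

open Finset

section

variable {A J Φ : Type} {k : J → ℕ} {m : ℕ}

/-- the term functions of `m` variables, with a bound for the number of operations -/
inductive Reach (F : Φ → ∀ j, (Fin (k j) → A) → A) : (Φ × (Fin m → A) → A) → ℕ → Prop
  | gen (t : Fin m) : Reach F (fun τ => τ.2 t) 0
  | app (j : J) (s : Fin (k j) → Φ × (Fin m → A) → A) (c : Fin (k j) → ℕ)
      (h : ∀ a, Reach F (s a) (c a)) : Reach F (fun τ => F τ.1 j fun a => s a τ) (1 + ∑ a, c a)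

variable [DecidableEq A]

theorem near_of_reach {F : Φ → ∀ j, (Fin (k j) → A) → A} {κ : Type} [Fintype κ]
    [DecidableEq κ] (φ : κ → Φ)
    {C : Finset (κ → A)} {e : ℝ}
    (hC : ∀ j (x : Fin (k j) → κ → A), (∀ a, x a ∈ C) →
      ∃ y ∈ C, ((univ.filter fun i => F (φ i) j (fun a => x a i) ≠ y i).card : ℝ) ≤ e)
    (c : Fin m → κ → A) (hc : ∀ t, c t ∈ C) {s : Φ × (Fin m → A) → A} {E : ℕ}
    (hs : Reach F s E) :
    ∃ y ∈ C, ((univ.filter fun i => s (φ i, fun t => c t i) ≠ y i).card : ℝ) ≤ E * e := by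
  induction hs with
  | gen t => exact ⟨c t, hc t, by simp⟩
  | app j s E _ ih =>
    choose y hy hye using ih
    obtain ⟨z, hz, hze⟩ := hC j y hy
    refine ⟨z, hz, ?_⟩
    have h1 : (univ.filter fun i => F (φ i) j (fun a => s a (φ i, fun t => c t i)) ≠ z i) ⊆
        (univ.filter fun i => F (φ i) j (fun a => y a i) ≠ z i) ∪
          univ.biUnion fun a => univ.filter fun i => s a (φ i, fun t => c t i) ≠ y a i := by
      intro i hi
      rw [mem_union, mem_biUnion]
      by_cases h : ∀ a, s a (φ i, fun t => c t i) = y a i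
      · left
        rw [mem_filter] at hi ⊢
        refine ⟨mem_univ _, ?_⟩
        have h2 : (fun a => y a i) = fun a => s a (φ i, fun t => c t i) := by
          funext a
          exact (h a).symm
        rw [h2]
        exact hi.2
      · right
        push Not at h
        obtain ⟨a, ha⟩ := h
        exact ⟨a, mem_univ _, mem_filter.2 ⟨mem_univ _, ha⟩⟩
    have h2 := (card_le_card h1).trans ((card_union_le _ _).trans
      (add_le_add le_rfl card_biUnion_le))
    have h3 : ((univ.filter fun i =>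
        F (φ i) j (fun a => s a (φ i, fun t => c t i)) ≠ z i).card : ℝ) ≤
        e + ∑ a, (E a : ℝ) * e := by
      calc _ ≤ (((univ.filter fun i => F (φ i) j (fun a => y a i) ≠ z i).card +
            ∑ a, (univ.filter fun i => s a (φ i, fun t => c t i) ≠ y a i).card : ℕ) : ℝ) := by
            exact_mod_cast h2
        _ ≤ _ := by
            push_cast
            exact add_le_add hze (sum_le_sum fun a _ => hye a)
    refine h3.trans (le_of_eq ?_)
    rw [← sum_mul]
    push_cast
    ring

end

/-- codes closed up to a small linear number of errors, if there is a bound for the closed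
codes -/
theorem near_of_exact {A J Φ : Type} [Fintype A] [DecidableEq A] [Nonempty A] [Finite Φ]
    {k : J → ℕ} (F : Φ → ∀ j, (Fin (k j) → A) → A)
    (hexact : ∀ (ι : Type) [Fintype ι] [DecidableEq ι] (φ : ι → Φ) (d : ℕ), 1 ≤ d →
      ∀ C : Finset (ι → A),
      (∀ j (x : Fin (k j) → ι → A), (∀ a, x a ∈ C) → (fun i => F (φ i) j fun a => x a i) ∈ C) →
      (∀ x ∈ C, ∀ y ∈ C, x ≠ y → d ≤ (univ.filter fun i => x i ≠ y i).card) →
      (C.card : ℝ) ≤ (Fintype.card A : ℝ) ^ ((Fintype.card ι : ℝ) / d))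
    {δ : ℝ} (hδ : 0 < δ) :
    ∃ θ : ℝ, 0 < θ ∧ ∀ (κ : Type) [Fintype κ] [DecidableEq κ] (n : ℕ), Fintype.card κ = n →
      ∀ (φ : κ → Φ) (C : Finset (κ → A)),
      (∀ j (x : Fin (k j) → κ → A), (∀ a, x a ∈ C) → ∃ y ∈ C,
        ((univ.filter fun i => F (φ i) j (fun a => x a i) ≠ y i).card : ℝ) ≤ θ * n) →
      (∀ x ∈ C, ∀ y ∈ C, x ≠ y → δ * n ≤ (univ.filter fun i => x i ≠ y i).card) →
      (C.card : ℝ) ≤ (Fintype.card A : ℝ) ^ (1 / δ) := by
  classical
  have := Fintype.ofFinite Φ
  set q : ℝ := (Fintype.card A : ℝ) with hq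
  have hq1 : 1 ≤ q := by
    rw [hq]
    exact_mod_cast Fintype.card_pos
  set m : ℕ := ⌊q ^ (1 / δ)⌋₊ + 1 with hm
  have hm1 : q ^ (1 / δ) < m := by
    rw [hm]
    push_cast
    exact Nat.lt_floor_add_one _
  have hm0 : (1 : ℝ) < m := lt_of_le_of_lt (Real.one_le_rpow hq1 (by positivity)) hm1
  have hlogm : 0 < Real.log m := Real.log_pos hm0
  have hlogq : 0 ≤ Real.log q := Real.log_nonneg hq1
  -- the slack
  set ε : ℝ := (δ - Real.log q / Real.log m) / 2 with hε
  have hεpos : 0 < ε := by
    have h1 : Real.log q / Real.log m < δ := by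
      rw [div_lt_iff₀ hlogm]
      have h2 := Real.log_lt_log (by positivity) hm1
      rw [Real.log_rpow (by linarith), div_mul_eq_mul_div, one_mul, div_lt_iff₀ hδ] at h2
      linarith
    rw [hε]
    linarith
  have hδε : 0 < δ - ε := by
    have h1 : 0 ≤ Real.log q / Real.log m := div_nonneg hlogq hlogm.le
    have h2 : δ - 2 * ε = Real.log q / Real.log m := by rw [hε]; ring
    linarith
  have hfin : q ^ (1 / (δ - ε)) < m := by
    rw [← Real.log_lt_log_iff (by positivity) (by linarith), Real.log_rpow (by linarith),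
      div_mul_eq_mul_div, one_mul, div_lt_iff₀ hδε]
    have h2 : δ - 2 * ε = Real.log q / Real.log m := by rw [hε]; ring
    have h3 : Real.log q = (δ - 2 * ε) * Real.log m := by
      rw [h2, div_mul_cancel₀ _ hlogm.ne']
    rw [h3]
    nlinarith
  -- the term functions
  set G : Finset (Φ × (Fin m → A) → A) := univ.filter fun s => ∃ E, Reach F s E with hG
  have hGex : ∀ s : Φ × (Fin m → A) → A, ∃ E, (∃ E', Reach F s E') → Reach F s E := by
    intro s
    by_cases h : ∃ E', Reach F s E'
    · obtain ⟨E, hE⟩ := h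
      exact ⟨E, fun _ => hE⟩
    · exact ⟨0, fun h' => absurd h' h⟩
  choose Ef hEf using hGex
  set E := ∑ s, Ef s with hE
  have hEle : ∀ s, Ef s ≤ E := fun s => single_le_sum (f := Ef) (fun _ _ => Nat.zero_le _)
    (mem_univ s)
  set T : ℝ := (Fintype.card (Φ × (Fin m → A)) : ℝ) with hT
  -- we need a type
  by_cases hΦ : Nonempty Φ
  swap
  · refine ⟨1, one_pos, fun κ _ _ n _ φ C _ _ => ?_⟩
    have h1 : C.card ≤ 1 := by
      refine card_le_one.2 fun x _ y _ => ?_
      funext i
      exact absurd ⟨φ i⟩ hΦ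
    have h2 : (C.card : ℝ) ≤ 1 := by exact_mod_cast h1
    exact h2.trans (Real.one_le_rpow hq1 (by positivity))
  have hT1 : 1 ≤ T := by
    rw [hT]
    exact_mod_cast Fintype.card_pos
  set η : ℝ := ε / (2 * T) with hη
  have hηpos : 0 < η := by positivity
  have hηT : T * η = ε / 2 := by
    rw [hη]
    field_simp
  have hηε : η ≤ ε / 2 := by nlinarith
  set θ : ℝ := η / (2 * (E + 1)) with hθ
  have hθpos : 0 < θ := by positivity
  have hθE : 2 * (E * θ) ≤ η := by
    rw [hθ]
    have h1 : 2 * ((E : ℝ) * (η / (2 * (E + 1)))) = η * (E / (E + 1)) := by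
      field_simp
    rw [h1]
    have h2 : (E : ℝ) / (E + 1) ≤ 1 := by
      rw [div_le_one (by positivity)]
      linarith
    nlinarith
  refine ⟨θ, hθpos, fun κ _ _ n hκn φ C hC hCd => ?_⟩
  by_contra hcon
  push Not at hcon
  have hCm : m ≤ C.card := by
    have h1 : (⌊q ^ (1 / δ)⌋₊ : ℝ) ≤ q ^ (1 / δ) := Nat.floor_le (by positivity)
    have h2 : (⌊q ^ (1 / δ)⌋₊ : ℝ) < C.card := lt_of_le_of_lt h1 hcon
    have h3 : ⌊q ^ (1 / δ)⌋₊ < C.card := by exact_mod_cast h2
    omega
  have hn : 0 < n := by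
    rcases Nat.eq_zero_or_pos n with h | h
    · subst h
      have h1 : C.card ≤ 1 := card_le_one.2 fun x _ y _ => by
        funext i
        exact absurd ⟨i⟩ (not_nonempty_iff.2 (Fintype.card_eq_zero_iff.1 hκn))
      have h2 : (2 : ℕ) ≤ m := by
        have : (1 : ℕ) < m := by exact_mod_cast hm0
        omega
      omega
    · exact h
  have hn' : (0 : ℝ) < n := by exact_mod_cast hn
  -- `m` words
  obtain ⟨C₁, hC₁, hC₁m⟩ := exists_subset_card_eq hCm
  let e : Fin m ≃ C₁ := (Fintype.equivFinOfCardEq (by rw [Fintype.card_coe, hC₁m])).symm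
  let c : Fin m → κ → A := fun t => (e t).1
  have hc : ∀ t, c t ∈ C := fun t => hC₁ (e t).2
  have hcinj : ∀ t t', t ≠ t' → c t ≠ c t' := fun t t' h h' =>
    h (e.injective (Subtype.ext h'))
  -- the types of the coordinates
  set τ : κ → Φ × (Fin m → A) := fun i => (φ i, fun t => c t i) with hτ
  have hnear : ∀ s ∈ G, ∃ y ∈ C,
      ((univ.filter fun i => s (τ i) ≠ y i).card : ℝ) ≤ E * (θ * n) := by
    intro s hs
    rw [hG, mem_filter] at hs
    obtain ⟨y, hy, hye⟩ := near_of_reach φ hC c hc (hEf s hs.2)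
    refine ⟨y, hy, hye.trans ?_⟩
    refine mul_le_mul_of_nonneg_right ?_ (by positivity)
    exact_mod_cast hEle s
  choose! Y hY hYe using hnear
  -- the rare types
  set rare : κ → Prop := fun i =>
    ((univ.filter fun i' => τ i' = τ i).card : ℝ) ≤ η * n with hrare
  have hrarecard : ((univ.filter fun i => rare i).card : ℝ) ≤ ε / 2 * n := by
    have h1 : (univ.filter fun i => rare i) ⊆
        (univ.filter fun t : Φ × (Fin m → A) =>
          ((univ.filter fun i' => τ i' = t).card : ℝ) ≤ η * n).biUnion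
          fun t => univ.filter fun i' => τ i' = t := by
      intro i hi
      rw [mem_filter] at hi
      rw [mem_biUnion]
      exact ⟨τ i, mem_filter.2 ⟨mem_univ _, hi.2⟩, mem_filter.2 ⟨mem_univ _, rfl⟩⟩
    have h2 := (card_le_card h1).trans card_biUnion_le
    calc ((univ.filter fun i => rare i).card : ℝ) ≤
        ((∑ t ∈ (univ.filter fun t : Φ × (Fin m → A) =>
          ((univ.filter fun i' => τ i' = t).card : ℝ) ≤ η * n),
          (univ.filter fun i' => τ i' = t).card : ℕ) : ℝ) := by exact_mod_cast h2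
      _ ≤ ∑ _t ∈ (univ.filter fun t : Φ × (Fin m → A) =>
          ((univ.filter fun i' => τ i' = t).card : ℝ) ≤ η * n), η * n := by
          push_cast
          exact sum_le_sum fun t ht => (mem_filter.1 ht).2
      _ ≤ ∑ _t : Φ × (Fin m → A), η * n :=
          sum_le_univ_sum_of_nonneg fun _ => by positivity
      _ = T * η * n := by
          rw [sum_const, card_univ, nsmul_eq_mul]
          ring
      _ = _ := by rw [hηT]
  -- the restricted code
  let ι := {i : κ // ¬ rare i}
  set R : (Φ × (Fin m → A) → A) → ι → A := fun s i => s (τ i.1) with hR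
  set d : ℕ := ⌈(δ - ε) * n⌉₊ with hd
  have hd1 : 1 ≤ d := Nat.ceil_pos.2 (by positivity)
  have hcardι : ∀ (x y : κ → A),
      ((univ.filter fun i => x i ≠ y i).card : ℝ) - ε / 2 * n ≤
        (univ.filter fun i : ι => x i.1 ≠ y i.1).card := by
    intro x y
    have h1 : (univ.filter fun i => x i ≠ y i) ⊆
        (univ.filter fun i => rare i) ∪
          (univ.filter fun i : ι => x i.1 ≠ y i.1).map (Function.Embedding.subtype _) := by
      intro i hi
      rw [mem_union]
      by_cases h : rare i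
      · exact Or.inl (mem_filter.2 ⟨mem_univ _, h⟩)
      · right
        rw [mem_map]
        exact ⟨⟨i, h⟩, mem_filter.2 ⟨mem_univ _, (mem_filter.1 hi).2⟩, rfl⟩
    have h2 := (card_le_card h1).trans (card_union_le _ _)
    rw [card_map] at h2
    have h3 : ((univ.filter fun i => x i ≠ y i).card : ℝ) ≤
        ((univ.filter fun i => rare i).card : ℝ) +
          (univ.filter fun i : ι => x i.1 ≠ y i.1).card := by exact_mod_cast h2
    linarith
  -- the distances
  have hdist : ∀ s ∈ G, ∀ s' ∈ G, R s ≠ R s' →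
      (δ - ε) * n ≤ ((univ.filter fun i : ι => R s i ≠ R s' i).card : ℝ) := by
    intro s hs s' hs' hss
    obtain ⟨i₀, hi₀⟩ := Function.ne_iff.1 hss
    have htri : ∀ (x y z : κ → A), (univ.filter fun i => x i ≠ z i).card ≤
        (univ.filter fun i => x i ≠ y i).card + (univ.filter fun i => y i ≠ z i).card := by
      intro x y z
      refine le_trans (card_le_card ?_) (card_union_le _ _)
      intro i hi
      rw [mem_union, mem_filter, mem_filter]
      rw [mem_filter] at hi
      by_cases h : x i = y i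
      · exact Or.inr ⟨mem_univ _, by rw [← h]; exact hi.2⟩
      · exact Or.inl ⟨mem_univ _, h⟩
    have hsy := hYe s hs
    have hsy' := hYe s' hs'
    have hne : Y s ≠ Y s' := by
      intro heq
      have h1 : (univ.filter fun i' => τ i' = τ i₀.1) ⊆
          univ.filter fun i => s (τ i) ≠ s' (τ i) := by
        intro i hi
        rw [mem_filter] at hi ⊢
        refine ⟨mem_univ _, ?_⟩
        rw [hi.2]
        exact hi₀
      have h2 := card_le_card h1
      have h3 := htri (fun i => s (τ i)) (Y s) (fun i => s' (τ i))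
      have h4 : (univ.filter fun i => Y s i ≠ s' (τ i)) =
          univ.filter fun i => s' (τ i) ≠ Y s' i := by
        ext i
        simp only [mem_filter, mem_univ, true_and]
        rw [heq]
        exact ⟨fun h => h.symm, fun h => h.symm⟩
      rw [h4] at h3
      have h5 : ((univ.filter fun i' => τ i' = τ i₀.1).card : ℝ) ≤
          E * (θ * n) + E * (θ * n) := by
        calc ((univ.filter fun i' => τ i' = τ i₀.1).card : ℝ) ≤
            (((univ.filter fun i => s (τ i) ≠ Y s i).card +
              (univ.filter fun i => s' (τ i) ≠ Y s' i).card : ℕ) : ℝ) := by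
              exact_mod_cast h2.trans h3
          _ ≤ _ := by
              push_cast
              exact add_le_add hsy hsy'
      have h6 : (E : ℝ) * (θ * n) + E * (θ * n) ≤ η * n := by nlinarith
      exact i₀.2 (h5.trans h6)
    have h1 := hCd (Y s) (hY s hs) (Y s') (hY s' hs') hne
    have h2 := htri (Y s) (fun i => s (τ i)) (Y s')
    have h3 := htri (fun i => s (τ i)) (fun i => s' (τ i)) (Y s')
    have h4 : (univ.filter fun i => Y s i ≠ s (τ i)) =
        univ.filter fun i => s (τ i) ≠ Y s i := by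
      ext i
      simp only [mem_filter, mem_univ, true_and]
      exact ⟨fun h => h.symm, fun h => h.symm⟩
    rw [h4] at h2
    have h5 : ((univ.filter fun i => Y s i ≠ Y s' i).card : ℝ) ≤
        E * (θ * n) + (((univ.filter fun i => s (τ i) ≠ s' (τ i)).card : ℝ) + E * (θ * n)) := by
      calc ((univ.filter fun i => Y s i ≠ Y s' i).card : ℝ) ≤
          (((univ.filter fun i => s (τ i) ≠ Y s i).card +
            ((univ.filter fun i => s (τ i) ≠ s' (τ i)).card +
            (univ.filter fun i => s' (τ i) ≠ Y s' i).card) : ℕ) : ℝ) := by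
            exact_mod_cast h2.trans (add_le_add le_rfl h3)
        _ ≤ _ := by
            push_cast
            exact add_le_add hsy (add_le_add le_rfl hsy')
    have h6 := hcardι (fun i => s (τ i)) (fun i => s' (τ i))
    have h7 : (E : ℝ) * (θ * n) + E * (θ * n) ≤ ε / 2 * n := by nlinarith
    change (δ - ε) * n ≤ ((univ.filter fun i : ι => s (τ i.1) ≠ s' (τ i.1)).card : ℝ)
    linarith
  set C' : Finset (ι → A) := G.image R with hC'
  have hclosed : ∀ j (x : Fin (k j) → ι → A), (∀ a, x a ∈ C') →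
      (fun i : ι => F (φ i.1) j fun a => x a i) ∈ C' := by
    intro j x hx
    have hx' : ∀ a, ∃ s ∈ G, R s = x a := fun a => mem_image.1 (hx a)
    choose s hs hsx using hx'
    refine mem_image.2 ⟨fun τ => F τ.1 j fun a => s a τ, ?_, ?_⟩
    · rw [hG, mem_filter]
      have h1 : ∀ a, ∃ E, Reach F (s a) E := by
        intro a
        have := hs a
        rw [hG, mem_filter] at this
        exact this.2
      choose c' hc' using h1
      exact ⟨mem_univ _, _, Reach.app j s c' hc'⟩
    · funext i
      have h1 : ∀ a, x a i = s a (τ i.1) := fun a => by rw [← hsx a]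
      simp only [h1]
      rfl
  have hcard := hexact ι (fun i => φ i.1) d hd1 C' hclosed (by
      intro x hx y hy hxy
      obtain ⟨s, hs, rfl⟩ := mem_image.1 hx
      obtain ⟨s', hs', rfl⟩ := mem_image.1 hy
      exact Nat.ceil_le.2 (hdist s hs s' hs' hxy))
  -- the number of words
  have hmC' : m ≤ C'.card := by
    have h1 : (univ : Finset (Fin m)).card ≤ C'.card := by
      refine card_le_card_of_injOn (fun t => R fun τ => τ.2 t) ?_ ?_
      · intro t _
        refine mem_coe.2 (mem_image.2 ⟨fun τ => τ.2 t, ?_, rfl⟩)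
        rw [hG, mem_filter]
        exact ⟨mem_univ _, 0, Reach.gen t⟩
      · intro t _ t' _ h
        by_contra htt
        have h1 := hCd _ (hc t) _ (hc t') (hcinj t t' htt)
        have h2 := hcardι (c t) (c t')
        have h3 : (univ.filter fun i : ι => c t i.1 ≠ c t' i.1) = ∅ := by
          refine filter_eq_empty_iff.2 fun i _ hi => hi ?_
          exact congrFun h i
        rw [h3, card_empty] at h2
        push_cast at h2
        have h4 : ε < δ := by linarith
        nlinarith
    rwa [card_univ, Fintype.card_fin] at h1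
  have hdpos : (0 : ℝ) < d := by exact_mod_cast hd1
  have hprod : q ^ ((Fintype.card ι : ℝ) / d) ≤ q ^ (1 / (δ - ε)) := by
    refine Real.rpow_le_rpow_of_exponent_le hq1 ?_
    rw [div_le_div_iff₀ hdpos hδε]
    have h1 : (Fintype.card ι : ℝ) ≤ n := by
      have := Fintype.card_subtype_le fun i : κ => ¬ rare i
      rw [hκn] at this
      exact_mod_cast this
    have h2 : (δ - ε) * n ≤ d := Nat.le_ceil _
    nlinarith
  have h1 : (m : ℝ) ≤ q ^ (1 / (δ - ε)) := by
    calc (m : ℝ) ≤ C'.card := by exact_mod_cast hmC'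
      _ ≤ q ^ ((Fintype.card ι : ℝ) / d) := hcard
      _ ≤ _ := hprod
  linarith

/-- the same, with a small linear number of arbitrary coordinates -/
theorem near_except {A J Φ : Type} [Fintype A] [DecidableEq A] [Nonempty A] [Finite Φ]
    {k : J → ℕ} (F : Φ → ∀ j, (Fin (k j) → A) → A)
    (hexact : ∀ (ι : Type) [Fintype ι] [DecidableEq ι] (φ : ι → Φ) (d : ℕ), 1 ≤ d →
      ∀ C : Finset (ι → A),
      (∀ j (x : Fin (k j) → ι → A), (∀ a, x a ∈ C) → (fun i => F (φ i) j fun a => x a i) ∈ C) →
      (∀ x ∈ C, ∀ y ∈ C, x ≠ y → d ≤ (univ.filter fun i => x i ≠ y i).card) →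
      (C.card : ℝ) ≤ (Fintype.card A : ℝ) ^ ((Fintype.card ι : ℝ) / d))
    {δ : ℝ} (hδ : 0 < δ) :
    ∃ θ : ℝ, 0 < θ ∧ ∀ (n : ℕ) (f : Fin n → ∀ j, (Fin (k j) → A) → A) (S : Finset (Fin n))
      (C : Finset (Fin n → A)), (S.card : ℝ) ≤ θ * n → (∀ i, i ∉ S → ∃ φ, f i = F φ) →
      (∀ j (x : Fin (k j) → Fin n → A), (∀ a, x a ∈ C) → ∃ y ∈ C,
        ((univ.filter fun i => f i j (fun a => x a i) ≠ y i).card : ℝ) ≤ θ * n) →
      (∀ x ∈ C, ∀ y ∈ C, x ≠ y → δ * n ≤ (univ.filter fun i => x i ≠ y i).card) →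
      (C.card : ℝ) ≤ (Fintype.card A : ℝ) ^ (1 / δ) := by
  classical
  set q : ℝ := (Fintype.card A : ℝ) with hq
  have hq1 : 1 ≤ q := by
    rw [hq]
    exact_mod_cast Fintype.card_pos
  set m : ℕ := ⌊q ^ (1 / δ)⌋₊ + 1 with hm
  have hm1 : q ^ (1 / δ) < m := by
    rw [hm]
    push_cast
    exact Nat.lt_floor_add_one _
  have hm0 : (1 : ℝ) < m := lt_of_le_of_lt (Real.one_le_rpow hq1 (by positivity)) hm1
  have hlogm : 0 < Real.log m := Real.log_pos hm0
  have hlogq : 0 ≤ Real.log q := Real.log_nonneg hq1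
  set ε : ℝ := (δ - Real.log q / Real.log m) / 2 with hε
  have hεpos : 0 < ε := by
    have h1 : Real.log q / Real.log m < δ := by
      rw [div_lt_iff₀ hlogm]
      have h2 := Real.log_lt_log (by positivity) hm1
      rw [Real.log_rpow (by linarith), div_mul_eq_mul_div, one_mul, div_lt_iff₀ hδ] at h2
      linarith
    rw [hε]
    linarith
  have h2 : δ - 2 * ε = Real.log q / Real.log m := by rw [hε]; ring
  have hδε : 0 < δ - ε := by
    have h1 : 0 ≤ Real.log q / Real.log m := div_nonneg hlogq hlogm.le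
    linarith
  have hfin : q ^ (1 / (δ - ε)) < m := by
    rw [← Real.log_lt_log_iff (by positivity) (by linarith), Real.log_rpow (by linarith),
      div_mul_eq_mul_div, one_mul, div_lt_iff₀ hδε]
    have h3 : Real.log q = (δ - 2 * ε) * Real.log m := by
      rw [h2, div_mul_cancel₀ _ hlogm.ne']
    rw [h3]
    nlinarith
  obtain ⟨θ₁, hθ₁, hmain⟩ := near_of_exact F hexact hδε
  set θ : ℝ := min (min (θ₁ / 2) (1 / 2)) ε with hθ
  have hθ0 : 0 < θ := lt_min (lt_min (by linarith) (by norm_num)) hεpos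
  have ht1 : θ ≤ θ₁ / 2 := (min_le_left _ _).trans (min_le_left _ _)
  have ht2 : θ ≤ 1 / 2 := (min_le_left _ _).trans (min_le_right _ _)
  have ht3 : θ ≤ ε := min_le_right _ _
  refine ⟨θ, hθ0, fun n f S C hS hf hC hCd => ?_⟩
  -- it suffices to prove a weaker bound
  suffices hsuff : (C.card : ℝ) ≤ q ^ (1 / (δ - ε)) by
    have h3 : (C.card : ℝ) < m := lt_of_le_of_lt hsuff hfin
    have h4 : C.card < m := by exact_mod_cast h3
    have h5 : C.card ≤ ⌊q ^ (1 / δ)⌋₊ := by omega
    calc (C.card : ℝ) ≤ (⌊q ^ (1 / δ)⌋₊ : ℝ) := by exact_mod_cast h5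
      _ ≤ _ := Nat.floor_le (by positivity)
  let κ := {i : Fin n // i ∉ S}
  choose φ hφ using hf
  have hn0 : (0 : ℝ) ≤ n := Nat.cast_nonneg _
  have hκ : (Fintype.card κ : ℝ) = n - S.card := by
    have h3 : Fintype.card κ = n - S.card := by
      rw [Fintype.card_subtype_compl, Fintype.card_fin, Fintype.card_coe]
    rw [h3, Nat.cast_sub]
    have := card_le_univ S
    rwa [Fintype.card_fin] at this
  have hκn : (Fintype.card κ : ℝ) ≤ n := by
    rw [hκ]
    have : (0 : ℝ) ≤ S.card := Nat.cast_nonneg _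
    linarith
  -- restriction
  have hres : ∀ x y : Fin n → A, ((univ.filter fun i => x i ≠ y i).card : ℝ) - S.card ≤
      (univ.filter fun i : κ => x i.1 ≠ y i.1).card := by
    intro x y
    have h1 : (univ.filter fun i => x i ≠ y i) ⊆ S ∪
        (univ.filter fun i : κ => x i.1 ≠ y i.1).map (Function.Embedding.subtype _) := by
      intro i hi
      rw [mem_union]
      by_cases h : i ∈ S
      · exact Or.inl h
      · right
        rw [mem_map]
        exact ⟨⟨i, h⟩, mem_filter.2 ⟨mem_univ _, (mem_filter.1 hi).2⟩, rfl⟩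
    have h2 := (card_le_card h1).trans (card_union_le _ _)
    rw [card_map] at h2
    have h3 : ((univ.filter fun i => x i ≠ y i).card : ℝ) ≤
        (S.card : ℝ) + (univ.filter fun i : κ => x i.1 ≠ y i.1).card := by exact_mod_cast h2
    linarith
  have hres' : ∀ x y : Fin n → A, ((univ.filter fun i : κ => x i.1 ≠ y i.1).card : ℝ) ≤
      (univ.filter fun i => x i ≠ y i).card := by
    intro x y
    have h1 : (univ.filter fun i : κ => x i.1 ≠ y i.1).map (Function.Embedding.subtype _) ⊆
        univ.filter fun i => x i ≠ y i := by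
      intro i hi
      rw [mem_map] at hi
      obtain ⟨i', hi', rfl⟩ := hi
      exact mem_filter.2 ⟨mem_univ _, (mem_filter.1 hi').2⟩
    have h2 := card_le_card h1
    rw [card_map] at h2
    exact_mod_cast h2
  set ρ : (Fin n → A) → κ → A := fun x i => x i.1 with hρ
  have hdist : ∀ x ∈ C, ∀ y ∈ C, x ≠ y →
      (δ - ε) * n ≤ (univ.filter fun i : κ => x i.1 ≠ y i.1).card := by
    intro x hx y hy hxy
    have h3 := hCd x hx y hy hxy
    have h4 := hres x y
    nlinarith
  rcases Nat.eq_zero_or_pos n with hn | hn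
  · subst hn
    have h1 : C.card ≤ 1 := card_le_one.2 fun x _ y _ => by
      funext i
      exact i.elim0
    have h3 : (C.card : ℝ) ≤ 1 := by exact_mod_cast h1
    exact h3.trans (Real.one_le_rpow hq1 (by positivity))
  have hn' : (0 : ℝ) < n := by exact_mod_cast hn
  have hinj : Set.InjOn ρ C := by
    intro x hx y hy hxy
    by_contra hne
    have h3 := hdist x hx y hy hne
    have h4 : (univ.filter fun i : κ => x i.1 ≠ y i.1) = ∅ :=
      filter_eq_empty_iff.2 fun i _ hi => hi (congrFun hxy i)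
    rw [h4, card_empty] at h3
    push_cast at h3
    have : 0 < (δ - ε) * n := by positivity
    linarith
  have h3 := hmain κ (Fintype.card κ) rfl (fun i => φ i.1 i.2) (C.image ρ) ?_ ?_
  · rwa [card_image_of_injOn hinj] at h3
  · intro j x hx
    have hx' : ∀ a, ∃ z ∈ C, ρ z = x a := fun a => mem_image.1 (hx a)
    choose z hz hzx using hx'
    obtain ⟨y, hy, hye⟩ := hC j z hz
    refine ⟨ρ y, mem_image_of_mem _ hy, ?_⟩
    have h4 : (univ.filter fun i : κ => F (φ i.1 i.2) j (fun a => x a i) ≠ ρ y i) =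
        univ.filter fun i : κ => f i.1 j (fun a => z a i.1) ≠ y i.1 := by
      ext i
      simp only [mem_filter, mem_univ, true_and]
      rw [← hφ i.1 i.2]
      have h5 : (fun a => x a i) = fun a => z a i.1 := by
        funext a
        rw [← hzx a]
      rw [h5]
    rw [h4]
    refine (hres' (fun i => f i j fun a => z a i) y).trans (hye.trans ?_)
    rw [hκ]
    nlinarith
  · intro x hx y hy hxy
    obtain ⟨x', hx', rfl⟩ := mem_image.1 hx
    obtain ⟨y', hy', rfl⟩ := mem_image.1 hy
    refine le_trans ?_ (hdist x' hx' y' hy' fun h => hxy (by rw [h]))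
    exact mul_le_mul_of_nonneg_left hκn hδε.le

/-- the bound for closed codes without affine coordinates -/
theorem card_le_of_not_affine {A J : Type} [Fintype A] [DecidableEq A] [Nonempty A]
    {k : J → ℕ} {ι : Type} [Fintype ι] [DecidableEq ι] (f : ι → ∀ j, (Fin (k j) → A) → A)
    (hid : ∀ i, Idem (f i)) (hna : ∀ i, ¬ Affine (f i)) {d : ℕ} (hd : 1 ≤ d)
    (C : Finset (ι → A))
    (hC : ∀ j (x : Fin (k j) → ι → A), (∀ a, x a ∈ C) → (fun i => f i j fun a => x a i) ∈ C)
    (hCd : ∀ x ∈ C, ∀ y ∈ C, x ≠ y → d ≤ (univ.filter fun i => x i ≠ y i).card) :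
    (C.card : ℝ) ≤ (Fintype.card A : ℝ) ^ ((Fintype.card ι : ℝ) / d) := by
  classical
  obtain ⟨D, -, hD, hcard⟩ := card_le f hid hd _ C rfl hC hCd
  have hD1 : D.card ≤ 1 := by
    refine card_le_one.2 fun x hx y hy => ?_
    by_contra hxy
    have h1 := hD x hx y hy hxy
    have h2 : (univ.filter fun i : ι => Affine (f i) ∧ x i ≠ y i) = ∅ := by
      refine filter_eq_empty_iff.2 fun i _ h => hna _ h.1
    rw [h2, card_empty] at h1
    omega
  have hq1 : (1 : ℝ) ≤ Fintype.card A := by exact_mod_cast Fintype.card_pos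
  have hprod : ∏ i : ι, (lett C i) ^ ((1 : ℝ) / d) ≤
      (Fintype.card A : ℝ) ^ ((Fintype.card ι : ℝ) / d) := by
    have hdpos : (0 : ℝ) < d := by exact_mod_cast hd
    calc ∏ i : ι, (lett C i) ^ ((1 : ℝ) / d) ≤
        ∏ _i : ι, (Fintype.card A : ℝ) ^ ((1 : ℝ) / d) := by
          refine prod_le_prod (fun i _ => Real.rpow_nonneg (lett_nonneg _ _) _) fun i _ => ?_
          refine Real.rpow_le_rpow (lett_nonneg _ _) ?_ (by positivity)
          unfold lett
          exact_mod_cast card_le_univ _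
      _ = (Fintype.card A : ℝ) ^ ((Fintype.card ι : ℝ) / d) := by
          rw [prod_const, card_univ, ← Real.rpow_natCast, ← Real.rpow_mul (by linarith)]
          congr 1
          ring
  calc (C.card : ℝ) ≤ D.card * ∏ i : ι, (lett C i) ^ ((1 : ℝ) / d) := hcard
    _ ≤ 1 * ∏ i : ι, (lett C i) ^ ((1 : ℝ) / d) := by
        refine mul_le_mul_of_nonneg_right (by exact_mod_cast hD1) ?_
        exact prod_nonneg fun i _ => Real.rpow_nonneg (lett_nonneg _ _) _
    _ ≤ _ := by rw [one_mul]; exact hprod

end Helper90K9.AB
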