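import Pool.Agent.Helper90K9.AB.Aff

/-!
# Splitting a closed code
-/

set_option autoImplicit false

namespace Helper90K9.AB

open Relation

section

variable {N J : Type} {k : J → ℕ} {g : ∀ j, (Fin (k j) → N) → N}

/-- equivalence relations compatible with the operations -/
structure IsCong (g : ∀ j, (Fin (k j) → N) → N) (θ : N → N → Prop) : Prop where
  refl : ∀ x, θ x x
  symm : ∀ x y, θ x y → θ y x
  trans : ∀ x y z, θ x y → θ y z → θ x z
  comp : ∀ j x y, (∀ a, θ (x a) (y a)) → θ (g j x) (g j y)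

theorem exists_minimal_cong [Finite N] (γ : N → N → Prop) (hγ : IsCong g γ)
    (hne : ∃ x y : N, γ x y ∧ x ≠ y) :
    ∃ θ, IsCong g θ ∧ (∃ x y, θ x y ∧ x ≠ y) ∧ (∀ x y, θ x y → γ x y) ∧
      ∀ θ', IsCong g θ' → (∀ x y, θ' x y → θ x y) → (∃ x y, θ' x y ∧ x ≠ y) →
        ∀ x y, θ x y → θ' x y := by
  classical
  have := Fintype.ofFinite N
  let S : Set (N → N → Prop) :=
    {θ | IsCong g θ ∧ (∃ x y, θ x y ∧ x ≠ y) ∧ ∀ x y, θ x y → γ x y}
  have hS : S.Nonempty := ⟨γ, hγ, hne, fun _ _ h => h⟩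
  obtain ⟨θ, hθ, hmin⟩ := WellFounded.has_min
    (measure fun θ : N → N → Prop => (Finset.univ.filter fun p : N × N => θ p.1 p.2).card).wf S hS
  refine ⟨θ, hθ.1, hθ.2.1, hθ.2.2, ?_⟩
  intro θ' h1 h2 h3 x y hxy
  by_contra hnot
  apply hmin θ' ⟨h1, h3, fun x y h => hθ.2.2 x y (h2 x y h)⟩
  change (Finset.univ.filter fun p : N × N => θ' p.1 p.2).card <
    (Finset.univ.filter fun p : N × N => θ p.1 p.2).card
  refine Finset.card_lt_card ⟨?_, ?_⟩
  · intro p hp
    rw [Finset.mem_filter] at hp ⊢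
    exact ⟨hp.1, h2 _ _ hp.2⟩
  · intro hsub
    have h4 : (x, y) ∈ Finset.univ.filter fun p : N × N => θ' p.1 p.2 :=
      hsub (Finset.mem_filter.2 ⟨Finset.mem_univ _, hxy⟩)
    exact hnot (Finset.mem_filter.1 h4).2

theorem Mat.cong {α β : N → N → Prop} (hα : IsCong g α) (hβ : IsCong g β) {p q r s : N}
    (hm : Mat g α β p q r s) : α p r ∧ α q s ∧ β p q ∧ β r s := by
  induction hm with
  | row a a' ha => exact ⟨ha, ha, hβ.refl _, hβ.refl _⟩
  | col b b' hb => exact ⟨hα.refl _, hα.refl _, hb, hb⟩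
  | app j p q r s _ ih =>
    exact ⟨hα.comp _ _ _ fun a => (ih a).1, hα.comp _ _ _ fun a => (ih a).2.1,
      hβ.comp _ _ _ fun a => (ih a).2.2.1, hβ.comp _ _ _ fun a => (ih a).2.2.2⟩

/-- the chains of matrices with `η i`-related rows -/
theorem chain {ι : Type} {η : ι → N → N → Prop} {θ : N → N → Prop} (hθ : IsCong g θ)
    (htot : ∀ x y, ReflTransGen (fun x y => ∃ i, η i x y) x y) {p q r s : N}
    (hm : Mat g (fun _ _ => True) θ p q r s) :
    θ p q ∧ θ r s ∧ ReflTransGen (fun a b : N × N => ∃ i, Mat g (η i) θ a.1 a.2 b.1 b.2)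
      (p, q) (r, s) := by
  induction hm with
  | row a a' _ =>
    refine ⟨hθ.refl _, hθ.refl _, ?_⟩
    exact rlift (fun x => (x, x)) (fun x y ⟨i, hi⟩ => ⟨i, Mat.row x y hi⟩) (htot a a')
  | col b b' hb => exact ⟨hb, hb, ReflTransGen.refl⟩
  | app j p q r s _ ih =>
    refine ⟨hθ.comp _ _ _ fun a => (ih a).1, hθ.comp _ _ _ fun a => (ih a).2.1, ?_⟩
    refine lift_chain (fun a b : N × N => ∃ i, Mat g (η i) θ a.1 a.2 b.1 b.2)
      (fun a b : N × N => ∃ i, Mat g (η i) θ a.1 a.2 b.1 b.2)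
      (fun x : Fin (k j) → N × N => ((g j fun a => (x a).1, g j fun a => (x a).2) : N × N))
      (fun u => θ u.1 u.2) ?_ (fun a => (p a, q a)) (fun a => (r a, s a))
      (fun a => (ih a).1) (fun a => (ih a).2.1) (fun a => (ih a).2.2)
    rintro x a u v hx ⟨i, hi⟩
    refine ⟨i, Mat.app j _ _ _ _ fun b => ?_⟩
    by_cases hb : b = a
    · subst hb
      simpa using hi
    · rw [Function.update_of_ne hb, Function.update_of_ne hb]
      exact Mat.col _ _ (hx b hb)

/-- a nontrivial congruence `θ` which meets the congruences `η i` trivially: if the congruences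
`η i` generate the full congruence, then `θ` is abelian -/
theorem term_condition {ι : Type} {η : ι → N → N → Prop} (hη : ∀ i, IsCong g (η i))
    {θ : N → N → Prop} (hθ : IsCong g θ) (hmeet : ∀ i x y, θ x y → η i x y → x = y)
    (htot : ∀ x y, ReflTransGen (fun x y => ∃ i, η i x y) x y) :
    ∀ p q r s, Mat g (fun _ _ => True) θ p q r s → p = q → r = s := by
  intro p q r s hm hpq
  have h1 := (chain hθ htot hm).2.2
  have key : ∀ a b : N × N, ReflTransGen
      (fun a b : N × N => ∃ i, Mat g (η i) θ a.1 a.2 b.1 b.2) a b → a.1 = a.2 →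
      b.1 = b.2 := by
    intro a b hab
    induction hab with
    | refl => exact id
    | tail _ hstep ih =>
      intro h
      have h2 := ih h
      obtain ⟨i, hi⟩ := hstep
      have h3 := hi.cong (hη i) hθ
      refine hmeet i _ _ h3.2.2.2 ?_
      refine (hη i).trans _ _ _ ((hη i).symm _ _ h3.1) ?_
      rw [h2]
      exact h3.2.1
  exact key _ _ h1 hpq

end

/-! ### codes -/

section

variable {N ι A J : Type} {k : J → ℕ} [Fintype ι] [DecidableEq A]

open Classical in
/-- a code in which the algebra of the words has a homomorphism to the letters at each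
coordinate: either there are at least `d` coordinates such that
the words cannot be connected by chains in which consecutive words agree at one of them, or
the words have distance at least `d` on the affine coordinates -/
theorem split_or [Finite N] {g : ∀ j, (Fin (k j) → N) → N} (hid : Idem g) (e : N → ι → A)
    (f : ι → ∀ j, (Fin (k j) → A) → A)
    (hhom : ∀ j x i, e (g j x) i = f i j (fun a => e (x a) i))
    {d : ℕ} (hd1 : 1 ≤ d)
    (hd : ∀ x y, x ≠ y → d ≤ (Finset.univ.filter fun i => e x i ≠ e y i).card) :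
    (∃ I : Finset ι, d ≤ I.card ∧
      ¬ ∀ x y, ReflTransGen (fun x y => ∃ i ∈ I, e x i = e y i) x y) ∨
    ∀ x y, x ≠ y → d ≤ (Finset.univ.filter fun i => Affine (f i) ∧ e x i ≠ e y i).card := by
  have hη : ∀ i, IsCong g (fun x y => e x i = e y i) := by
    intro i
    refine ⟨fun _ => rfl, fun _ _ h => h.symm, fun _ _ _ h h' => h.trans h', ?_⟩
    intro j x y h
    rw [hhom, hhom]
    congr 1
    funext a
    exact h a
  -- the coordinates at which a congruence is faithful
  set I : (N → N → Prop) → Finset ι := fun θ =>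
    Finset.univ.filter fun i => ∀ x y, θ x y → e x i = e y i → x = y with hI
  -- the coordinates at which two `θ`-related words differ
  have hdiff : ∀ θ, IsCong g θ → (∀ θ', IsCong g θ' → (∀ x y, θ' x y → θ x y) →
      (∃ x y, θ' x y ∧ x ≠ y) → ∀ x y, θ x y → θ' x y) → ∀ x y, θ x y →
      ∀ i, e x i ≠ e y i → i ∈ I θ := by
    intro θ hθ hmin x₀ y₀ hxy i hi
    rw [hI, Finset.mem_filter]
    refine ⟨Finset.mem_univ _, ?_⟩
    by_contra hcon
    push Not at hcon
    obtain ⟨x, y, h1, h2, h3⟩ := hcon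
    have h4 := hmin (fun x y => θ x y ∧ e x i = e y i)
      ⟨fun _ => ⟨hθ.refl _, rfl⟩, fun _ _ h => ⟨hθ.symm _ _ h.1, h.2.symm⟩,
        fun _ _ _ h h' => ⟨hθ.trans _ _ _ h.1 h'.1, h.2.trans h'.2⟩,
        fun j x y h => ⟨hθ.comp _ _ _ fun a => (h a).1, (hη i).comp _ _ _ fun a => (h a).2⟩⟩
      (fun _ _ h => h.1) ⟨x, y, ⟨h1, h2⟩, h3⟩ x₀ y₀ hxy
    exact hi h4.2
  have hcard : ∀ θ, IsCong g θ → (∃ x y, θ x y ∧ x ≠ y) → (∀ θ', IsCong g θ' →
      (∀ x y, θ' x y → θ x y) → (∃ x y, θ' x y ∧ x ≠ y) → ∀ x y, θ x y → θ' x y) →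
      d ≤ (I θ).card := by
    rintro θ hθ ⟨x₀, y₀, hxy, hne⟩ hmin
    refine (hd x₀ y₀ hne).trans (Finset.card_le_card ?_)
    intro i hi
    exact hdiff θ hθ hmin x₀ y₀ hxy i (Finset.mem_filter.1 hi).2
  by_cases hall : ∀ θ, IsCong g θ → (∃ x y, θ x y ∧ x ≠ y) → (∀ θ', IsCong g θ' →
      (∀ x y, θ' x y → θ x y) → (∃ x y, θ' x y ∧ x ≠ y) → ∀ x y, θ x y → θ' x y) →
      ∀ i ∈ I θ, Affine (f i)
  · right
    intro x y hxy
    -- the congruence given by the coordinates at which `x` and `y` agree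
    obtain ⟨θ, hθ, hne, hle, hmin⟩ := exists_minimal_cong (g := g)
      (fun u v => ∀ i, e x i = e y i → e u i = e v i)
      ⟨fun _ _ _ => rfl, fun _ _ h i hi => (h i hi).symm,
        fun _ _ _ h h' i hi => (h i hi).trans (h' i hi),
        fun j u v h i hi => (hη i).comp _ _ _ fun a => h a i hi⟩
      ⟨x, y, fun _ h => h, hxy⟩
    refine (hcard θ hθ hne hmin).trans (Finset.card_le_card ?_)
    intro i hi
    rw [Finset.mem_filter]
    refine ⟨Finset.mem_univ _, hall θ hθ hne hmin i hi, ?_⟩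
    intro hxyi
    obtain ⟨u, v, huv, huv'⟩ := hne
    rw [hI, Finset.mem_filter] at hi
    exact huv' (hi.2 u v huv (hle u v huv i hxyi))
  · left
    push Not at hall
    obtain ⟨θ, hθ, ⟨x₀, y₀, hxy, hne⟩, hmin, i₀, hi₀, hnaff⟩ := hall
    refine ⟨I θ, hcard θ hθ ⟨x₀, y₀, hxy, hne⟩ hmin, ?_⟩
    intro htot
    apply hnaff
    have hTC := term_condition (ι := {i // i ∈ I θ}) (η := fun i x y => e x i.1 = e y i.1)
      (fun i => hη i.1) hθ (fun i x y h h' => (Finset.mem_filter.1 i.2).2 x y h h') (by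
        intro x y
        refine rlift id ?_ (htot x y)
        rintro a b ⟨i, hi, hab⟩
        exact ⟨⟨i, hi⟩, hab⟩)
    -- the class of `x₀` is an abelian algebra
    let g' : ∀ j, (Fin (k j) → {x // θ x₀ x}) → {x // θ x₀ x} := fun j x =>
      ⟨g j fun a => (x a).1, by
        have := hθ.comp j (fun _ => x₀) (fun a => (x a).1) (fun a => (x a).2)
        rwa [hid j x₀] at this⟩
    have hmat : ∀ p q r s : {x // θ x₀ x}, Mat g' (fun _ _ => True) (fun _ _ => True) p q r s →
        Mat g (fun _ _ => True) θ p.1 q.1 r.1 s.1 := by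
      intro p q r s hm
      induction hm with
      | row a a' _ => exact Mat.row _ _ trivial
      | col b b' _ => exact Mat.col _ _ (hθ.trans _ _ _ (hθ.symm _ _ b.2) b'.2)
      | app j p q r s _ ih => exact Mat.app j _ _ _ _ ih
    refine affine_of_TC (N := {x // θ x₀ x}) (g := g') (fun j a => Subtype.ext (hid j a.1))
      ⟨⟨x₀, hθ.refl x₀⟩, ⟨y₀, hxy⟩, fun h => hne (congrArg Subtype.val h)⟩
      (fun p q r s hm hpq => Subtype.ext (hTC _ _ _ _ (hmat p q r s hm) (by rw [hpq])))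
      (fun x => e x.1 i₀) ?_ (fun j x => hhom j _ i₀)
    intro x y h
    exact Subtype.ext ((Finset.mem_filter.1 hi₀).2 x.1 y.1
      (hθ.trans _ _ _ (hθ.symm _ _ x.2) y.2) h)

end

end Helper90K9.AB
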